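import Mathlib

set_option autoImplicit false

/-!
MP_120218_co, project IS: a maximal family of disjoint cliques.
-/

open Finset

namespace Pool.Agent.Helper2.IS

theorem exists_cliques (A : Finset ℤ) (R : ℤ → ℤ → Prop) (M : ℕ) (hM : 1 ≤ M) : ∃ B ⊆ A,
    ∃ cell : ℤ → Finset ℤ,
      (∀ b ∈ B, M ≤ (B.filter (fun b' => cell b' = cell b)).card) ∧
      (∀ b ∈ B, ∀ b' ∈ B, b ≠ b' → cell b = cell b' → R b b') ∧
      ∀ S ⊆ A \ B, M ≤ S.card → ∃ a ∈ S, ∃ a' ∈ S, a ≠ a' ∧ ¬ R a a' := by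
  classical
  -- the good families: disjoint cliques with at least `M` elements
  set good : Finset (Finset (Finset ℤ)) := A.powerset.powerset.filter (fun 𝓢 =>
    (∀ S ∈ 𝓢, M ≤ S.card ∧ ∀ a ∈ S, ∀ a' ∈ S, a ≠ a' → R a a') ∧
    ∀ S ∈ 𝓢, ∀ S' ∈ 𝓢, ∀ a ∈ S, a ∈ S' → S = S') with hgood
  have hne : good.Nonempty := ⟨∅, by
    rw [hgood, mem_filter]
    refine ⟨mem_powerset.2 (empty_subset _), fun S hS => absurd hS (notMem_empty S),
      fun S hS => absurd hS (notMem_empty S)⟩⟩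
  obtain ⟨𝓢, h𝓢, hmax⟩ := exists_max_image good card hne
  have h𝓢' := mem_filter.1 h𝓢
  have hsub : ∀ S ∈ 𝓢, S ⊆ A := fun S hS => mem_powerset.1 (mem_powerset.1 h𝓢'.1 hS)
  obtain ⟨hcl, hdis⟩ := h𝓢'.2
  have hfilt : ∀ S ∈ 𝓢, ∀ a ∈ S, 𝓢.filter (fun T => a ∈ T) = {S} := by
    intro S hS a ha
    ext T
    rw [mem_filter, mem_singleton]
    constructor
    · rintro ⟨hT, haT⟩
      exact (hdis S hS T hT a ha haT).symm
    · rintro rfl
      exact ⟨hS, ha⟩
  refine ⟨𝓢.biUnion id, ?_, fun a => (𝓢.filter (fun T => a ∈ T)).biUnion id, ?_, ?_, ?_⟩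
  · intro a ha
    obtain ⟨S, hS, haS⟩ := mem_biUnion.1 ha
    exact hsub S hS haS
  · intro b hb
    obtain ⟨S, hS, hbS⟩ := mem_biUnion.1 hb
    refine (hcl S hS).1.trans (card_le_card fun b' hb' => ?_)
    rw [mem_filter]
    refine ⟨mem_biUnion.2 ⟨S, hS, hb'⟩, ?_⟩
    show (𝓢.filter (fun T => b' ∈ T)).biUnion id = (𝓢.filter (fun T => b ∈ T)).biUnion id
    rw [hfilt S hS b' hb', hfilt S hS b hbS]
  · intro b hb b' hb' hne' hcell
    obtain ⟨S, hS, hbS⟩ := mem_biUnion.1 hb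
    obtain ⟨S', hS', hbS'⟩ := mem_biUnion.1 hb'
    change (𝓢.filter (fun T => b ∈ T)).biUnion id =
      (𝓢.filter (fun T => b' ∈ T)).biUnion id at hcell
    rw [hfilt S hS b hbS, hfilt S' hS' b' hbS', singleton_biUnion, singleton_biUnion] at hcell
    simp only [id] at hcell hbS hbS'
    rw [← hcell] at hbS'
    exact (hcl S hS).2 b hbS b' hbS' hne'
  · intro S hS hMS
    by_contra hcon
    push Not at hcon
    have hSne : S.Nonempty := card_pos.1 (lt_of_lt_of_le hM hMS)
    have hSnot : ∀ a ∈ S, ∀ T ∈ 𝓢, a ∉ T := by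
      intro a ha T hT haT
      exact (mem_sdiff.1 (hS ha)).2 (mem_biUnion.2 ⟨T, hT, haT⟩)
    have hSn : S ∉ 𝓢 := by
      intro h
      obtain ⟨a, ha⟩ := hSne
      exact hSnot a ha S h ha
    have hins : insert S 𝓢 ∈ good := by
      rw [hgood, mem_filter]
      refine ⟨?_, ?_, ?_⟩
      · rw [mem_powerset]
        intro T hT
        rw [mem_powerset]
        rcases mem_insert.1 hT with rfl | hT
        · exact fun a ha => (mem_sdiff.1 (hS ha)).1
        · exact hsub T hT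
      · intro T hT
        rcases mem_insert.1 hT with rfl | hT
        · exact ⟨hMS, fun a ha a' ha' hne' => hcon a ha a' ha' hne'⟩
        · exact hcl T hT
      · intro T hT T' hT' a ha ha'
        rcases mem_insert.1 hT with h1 | h1
        · rcases mem_insert.1 hT' with h2 | h2
          · rw [h1, h2]
          · rw [h1] at ha
            exact absurd ha' (hSnot a ha T' h2)
        · rcases mem_insert.1 hT' with h2 | h2
          · rw [h2] at ha'
            exact absurd ha (hSnot a ha' T h1)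
          · exact hdis T h1 T' h2 a ha ha'
    have h1 := hmax _ hins
    rw [card_insert_of_notMem hSn] at h1
    omega

end Pool.Agent.Helper2.IS
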