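import Pool.Agent.Helper2.IS.Main

set_option autoImplicit false

/-!
MP_120218_co, project IS (isolation): progressions and sumsets.
-/

open Finset
open scoped Pointwise

namespace Pool.Agent.Helper2.IS

open Pool.Agent.Helper2.E Pool.Agent.Helper5

/-- two different elements of a coprime progression have a small common divisor -/
theorem gcd_le_of_prog {r Q s t : ℤ} (hrQ : IsCoprime r Q) (hne : r + Q * s ≠ r + Q * t) :
    Int.gcd (r + Q * s) (r + Q * t) ≤ (s - t).natAbs := by
  have hst : s - t ≠ 0 := by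
    intro h
    apply hne
    rw [sub_eq_zero.1 h]
  set d := Int.gcd (r + Q * s) (r + Q * t) with hd
  have h1 : (d : ℤ) ∣ r + Q * s := Int.gcd_dvd_left _ _
  have h2 : (d : ℤ) ∣ r + Q * t := Int.gcd_dvd_right _ _
  have h3 : (d : ℤ) ∣ Q * (s - t) := by
    have := dvd_sub h1 h2
    have e : r + Q * s - (r + Q * t) = Q * (s - t) := by ring
    rwa [e] at this
  have hcop : IsCoprime (d : ℤ) Q := by
    have h4 : IsCoprime (r + Q * s) Q := by
      rw [mul_comm]
      exact IsCoprime.add_mul_right_left hrQ s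
    exact IsCoprime.of_isCoprime_of_dvd_left h4 h1
  have h5 : (d : ℤ) ∣ s - t := hcop.dvd_of_dvd_mul_left h3
  exact Nat.le_of_dvd (Int.natAbs_pos.2 hst) (Int.natCast_dvd.1 h5)

/-- **The dichotomy**, with its consequences for progressions and for sums of dilates. -/
theorem main' (k : ℕ) (hk : 1 ≤ k) (ε : ℝ) (hε : 0 < ε) : ∃ M : ℕ, ∃ c : ℝ, 0 < c ∧
    ∀ A : Finset ℤ, A.Nonempty →
      c * (A.card : ℝ) ^ ((k : ℝ) - ε) ≤ ((kP k A).card : ℝ) ∨
      ((∃ E ⊆ A, (E.card : ℝ) ≤ (A.card : ℝ) ^ (1 - c) ∧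
        (∀ S ⊆ A \ E, M ≤ S.card → ∃ a ∈ S, ∃ a' ∈ S, a ≠ a' ∧
          (A.card : ℝ) ^ (c * Real.log (Real.log A.card)) < (Int.gcd a a' : ℝ)) ∧
        ∀ r Q : ℤ, IsCoprime r Q → ∀ u : ℝ, ∀ S ⊆ A \ E,
          (∀ a ∈ S, ∃ t : ℤ, a = r + Q * t ∧ u ≤ t ∧
            (t : ℝ) ≤ u + (A.card : ℝ) ^ (c * Real.log (Real.log A.card))) → S.card < M) ∧
      ∀ X : Finset ℤ, (∀ x ∈ X, ∀ x' ∈ X, ((x - x' : ℤ) : ℝ) ≤
        (A.card : ℝ) ^ (c * Real.log (Real.log A.card))) →
        ∀ v : ℤ → ℤ, (∀ x ∈ X, v x ≠ 0) → c * ((A.card : ℝ) * X.card) ≤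
          (((A ×ˢ X).image (fun z => v z.2 * z.1 + z.2)).card : ℝ)) := by
  classical
  have hk0 : (0 : ℝ) < k := by exact_mod_cast hk
  obtain ⟨M, hM, c₁, hc₁, hc₁1, hmain⟩ := main k hk ε hε
  have hMr : (0 : ℝ) < M := by exact_mod_cast hM
  -- threshold for the size
  set L₂ : ℝ := max (max 2 (1 / c₁)) (4 * M) with hL₂
  have hL₂a : 2 ≤ L₂ := (le_max_left _ _).trans (le_max_left _ _)
  have hL₂b : 1 / c₁ ≤ L₂ := (le_max_right _ _).trans (le_max_left _ _)
  have hL₂d : 4 * M ≤ L₂ := le_max_right _ _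
  clear_value L₂
  refine ⟨M, min (min c₁ (1 / (4 * M))) (Real.exp (-(k * L₂))), by positivity, ?_⟩
  set c : ℝ := min (min c₁ (1 / (4 * M))) (Real.exp (-(k * L₂))) with hc
  have hc0 : 0 < c := by rw [hc]; positivity
  have hcc₁ : c ≤ c₁ := (min_le_left _ _).trans (min_le_left _ _)
  have hcM : c ≤ 1 / (4 * M) := (min_le_left _ _).trans (min_le_right _ _)
  have hce : c ≤ Real.exp (-(k * L₂)) := min_le_right _ _
  clear_value c
  intro A hA
  have hn1 : (1 : ℝ) ≤ A.card := by exact_mod_cast card_pos.mpr hA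
  have hnpos : (0 : ℝ) < A.card := by linarith
  have hLnn : 0 ≤ Real.log (A.card : ℝ) := Real.log_nonneg hn1
  have hPne : (kP k A).Nonempty := by
    obtain ⟨a, ha⟩ := hA
    exact ⟨_, mem_image_of_mem _ (Fintype.mem_piFinset.2 (fun _ => ha) :
      (fun _ : Fin k => a) ∈ Fintype.piFinset (fun _ : Fin k => A))⟩
  have hP1 : (1 : ℝ) ≤ ((kP k A).card : ℝ) := by exact_mod_cast card_pos.mpr hPne
  rcases lt_or_ge (Real.log (A.card : ℝ)) L₂ with hsm | hLL₂
  · left
    refine le_trans ?_ hP1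
    have h1 : (A.card : ℝ) ^ ((k : ℝ) - ε) ≤ Real.exp (k * L₂) := by
      rw [Real.rpow_def_of_pos hnpos]
      apply Real.exp_le_exp.2
      nlinarith
    calc c * (A.card : ℝ) ^ ((k : ℝ) - ε) ≤ Real.exp (-(k * L₂)) * Real.exp (k * L₂) := by
          apply mul_le_mul hce h1 (Real.rpow_nonneg hnpos.le _) (Real.exp_pos _).le
      _ = 1 := by rw [← Real.exp_add]; simp
  have hloglog : 0 ≤ Real.log (Real.log (A.card : ℝ)) := Real.log_nonneg (by linarith)
  rcases hmain A hA with hleft | ⟨E, hEA, hEc, hclq⟩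
  · left
    refine le_trans ?_ hleft
    exact mul_le_mul_of_nonneg_right hcc₁ (Real.rpow_nonneg hnpos.le _)
  right
  set h : ℝ := (A.card : ℝ) ^ (c * Real.log (Real.log A.card)) with hh
  have hh1 : 1 ≤ h := Real.one_le_rpow hn1 (by positivity)
  have hpow : h ≤ (A.card : ℝ) ^ (c₁ * Real.log (Real.log A.card)) :=
    Real.rpow_le_rpow_of_exponent_le hn1 (mul_le_mul_of_nonneg_right hcc₁ hloglog)
  have hclq' : ∀ S ⊆ A \ E, M ≤ S.card → ∃ a ∈ S, ∃ a' ∈ S, a ≠ a' ∧
      h < (Int.gcd a a' : ℝ) := by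
    intro S hS hMS
    obtain ⟨a, ha, a', ha', hne, hlt⟩ := hclq S hS hMS
    exact ⟨a, ha, a', ha', hne, lt_of_le_of_lt hpow hlt⟩
  refine ⟨⟨E, hEA, ?_, hclq', ?_⟩, ?_⟩
  · refine hEc.trans (Real.rpow_le_rpow_of_exponent_le hn1 (by linarith))
  · intro r Q hrQ u S hS hprog
    by_contra hlt
    push Not at hlt
    obtain ⟨a, ha, a', ha', hne, hgt⟩ := hclq' S hS hlt
    obtain ⟨s, hs, hs1, hs2⟩ := hprog a ha
    obtain ⟨t, ht, ht1, ht2⟩ := hprog a' ha'
    rw [hs, ht] at hgt hne
    have h1 := gcd_le_of_prog hrQ hne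
    have h2 : ((Int.gcd (r + Q * s) (r + Q * t) : ℕ) : ℝ) ≤ ((s - t).natAbs : ℝ) := by
      exact_mod_cast h1
    have h3 : ((s - t).natAbs : ℝ) ≤ h := by
      rw [Nat.cast_natAbs, Int.cast_abs, Int.cast_sub, abs_le]
      constructor <;> linarith
    linarith
  · intro X hX v hv
    -- the large elements outside `E`
    set A₀ := (A \ E).filter (fun a => ((a.natAbs : ℕ) : ℝ) ≤ h) with hA₀
    set A₁ := (A \ E).filter (fun a => ¬ ((a.natAbs : ℕ) : ℝ) ≤ h) with hA₁
    have hA₁A : A₁ ⊆ A := (filter_subset _ _).trans sdiff_subset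
    have hA₁E : A₁ ⊆ A \ E := filter_subset _ _
    have hA₀c : A₀.card < M := by
      by_contra hlt
      push Not at hlt
      obtain ⟨a, ha, a', ha', hne, hgt⟩ := hclq' A₀ (filter_subset _ _) hlt
      have h1 := (mem_filter.1 ha).2
      have h2 := (mem_filter.1 ha').2
      have h3 : Int.gcd a a' ≤ max a.natAbs a'.natAbs := by
        rcases eq_or_ne a 0 with h0 | h0
        · rw [h0, Int.gcd_zero_left]
          exact le_max_right _ _
        · refine le_trans ?_ (le_max_left _ _)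
          exact Nat.le_of_dvd (Int.natAbs_pos.2 h0) (Int.gcd_dvd_natAbs_left a a')
      have h4 : ((max a.natAbs a'.natAbs : ℕ) : ℝ) ≤ h := by
        rw [Nat.cast_max]
        exact max_le h1 h2
      have h5 : ((Int.gcd a a' : ℕ) : ℝ) ≤ ((max a.natAbs a'.natAbs : ℕ) : ℝ) := by
        exact_mod_cast h3
      linarith
    have hEhalf : (E.card : ℝ) ≤ A.card / 2 := by
      refine hEc.trans ?_
      rw [Real.rpow_sub hnpos, Real.rpow_one]
      apply div_le_div_of_nonneg_left hnpos.le (by norm_num)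
      have h1 : 1 ≤ c₁ * Real.log (A.card : ℝ) := by
        have := hL₂b.trans hLL₂
        rw [div_le_iff₀ hc₁] at this
        linarith
      rw [Real.rpow_def_of_pos hnpos]
      have h2 : (2 : ℝ) ≤ Real.exp 1 := by
        have := Real.exp_one_gt_d9
        linarith
      refine h2.trans (Real.exp_le_exp.2 ?_)
      linarith
    have hA₁c : (A.card : ℝ) / 4 ≤ A₁.card := by
      have h1 : (A \ E).card = A.card - E.card := card_sdiff_of_subset hEA
      have h2 : E.card ≤ A.card := card_le_card hEA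
      have h3 : ((A \ E).card : ℝ) = A.card - E.card := by
        rw [h1, Nat.cast_sub h2]
      have h4 : A₀.card + A₁.card = (A \ E).card := card_filter_add_card_filter_not _
      have h5 : (A₀.card : ℝ) + A₁.card = (A \ E).card := by exact_mod_cast h4
      have h6 : (A₀.card : ℝ) ≤ M := by exact_mod_cast hA₀c.le
      have h7 : (4 : ℝ) * M ≤ A.card := by
        refine (hL₂d.trans hLL₂).trans ?_
        exact (Real.log_le_sub_one_of_pos hnpos).trans (by linarith)
      linarith
    have hfib : ∀ y ∈ (A₁ ×ˢ X).image (fun z => v z.2 * z.1 + z.2),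
        ((A₁ ×ˢ X).filter (fun z => v z.2 * z.1 + z.2 = y)).card ≤ M := by
      intro y _
      by_contra hlt
      push Not at hlt
      -- two solutions
      have htwo : ∀ z ∈ (A₁ ×ˢ X).filter (fun z => v z.2 * z.1 + z.2 = y),
          ∀ w ∈ (A₁ ×ˢ X).filter (fun z => v z.2 * z.1 + z.2 = y), z.2 ≠ w.2 →
          ((Int.gcd z.1 w.1 : ℕ) : ℝ) ≤ h := by
        intro z hz w hw hne
        have hz1 := mem_filter.1 hz
        have hw1 := mem_filter.1 hw
        have hzX := (mem_product.1 hz1.1).2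
        have hwX := (mem_product.1 hw1.1).2
        have hdiff : z.2 - w.2 = v w.2 * w.1 - v z.2 * z.1 := by
          have e1 := hz1.2
          have e2 := hw1.2
          linarith
        have hpos : z.2 - w.2 ≠ 0 := sub_ne_zero.2 hne
        have h1 : Int.gcd z.1 w.1 ∣ (z.2 - w.2).natAbs := by
          rw [← Int.natCast_dvd, hdiff]
          exact dvd_sub ((Int.gcd_dvd_right _ _).mul_left _) ((Int.gcd_dvd_left _ _).mul_left _)
        have h2 := Nat.le_of_dvd (Int.natAbs_pos.2 hpos) h1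
        have h3 : ((Int.gcd z.1 w.1 : ℕ) : ℝ) ≤ ((z.2 - w.2).natAbs : ℝ) := by exact_mod_cast h2
        have h4 : ((z.2 - w.2).natAbs : ℝ) ≤ h := by
          rw [Nat.cast_natAbs, Int.cast_abs, abs_le]
          have h5 := hX w.2 hwX z.2 hzX
          have h6 := hX z.2 hzX w.2 hwX
          constructor
          · push_cast at h5 ⊢
            linarith
          · exact h6
        linarith
      have hinj : Set.InjOn Prod.fst
          (((A₁ ×ˢ X).filter (fun z => v z.2 * z.1 + z.2 = y) : Finset (ℤ × ℤ)) :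
            Set (ℤ × ℤ)) := by
        intro z hz w hw hzw
        have hzw' : z.1 = w.1 := hzw
        by_contra hne
        have hne2 : z.2 ≠ w.2 := fun h2 => hne (Prod.ext hzw' h2)
        have h1 := htwo z (mem_coe.1 hz) w (mem_coe.1 hw) hne2
        rw [← hzw', Int.gcd_self] at h1
        have h2 := (mem_filter.1 (mem_product.1 (mem_filter.1 (mem_coe.1 hz)).1).1).2
        exact h2 h1
      set S := ((A₁ ×ˢ X).filter (fun z => v z.2 * z.1 + z.2 = y)).image Prod.fst with hS
      have hSc : S.card = ((A₁ ×ˢ X).filter (fun z => v z.2 * z.1 + z.2 = y)).card :=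
        card_image_of_injOn hinj
      obtain ⟨a, ha, a', ha', hne, hgt⟩ := hclq' S (by
        intro a ha
        obtain ⟨z, hz, rfl⟩ := mem_image.1 ha
        exact hA₁E (mem_product.1 (mem_filter.1 hz).1).1) (by rw [hSc]; omega)
      obtain ⟨z, hz, rfl⟩ := mem_image.1 ha
      obtain ⟨w, hw, rfl⟩ := mem_image.1 ha'
      have hne2 : z.2 ≠ w.2 := by
        intro h2
        apply hne
        have e1 := (mem_filter.1 hz).2
        have e2 := (mem_filter.1 hw).2
        have hzX := (mem_product.1 (mem_filter.1 hz).1).2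
        rw [h2] at e1 hzX
        have e3 : v w.2 * z.1 = v w.2 * w.1 := by linarith
        exact mul_left_cancel₀ (hv w.2 hzX) e3
      have := htwo z hz w hw hne2
      linarith
    have hcount := card_le_mul_card_image (s := A₁ ×ˢ X)
      (f := fun z : ℤ × ℤ => v z.2 * z.1 + z.2) M hfib
    rw [card_product] at hcount
    have hmono : (((A₁ ×ˢ X).image (fun z => v z.2 * z.1 + z.2)).card : ℝ) ≤
        ((A ×ˢ X).image (fun z => v z.2 * z.1 + z.2)).card := by
      exact_mod_cast card_le_card (image_subset_image (product_subset_product_left hA₁A))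
    have h7 : (A₁.card : ℝ) * X.card ≤
        M * ((A ×ˢ X).image (fun z => v z.2 * z.1 + z.2)).card := by
      have h8 : (A₁.card : ℝ) * X.card ≤
          M * ((A₁ ×ˢ X).image (fun z => v z.2 * z.1 + z.2)).card := by exact_mod_cast hcount
      exact h8.trans (mul_le_mul_of_nonneg_left hmono hMr.le)
    have h9 : c * ((A.card : ℝ) * X.card) ≤ 1 / (4 * M) * ((A.card : ℝ) * X.card) :=
      mul_le_mul_of_nonneg_right hcM (by positivity)
    refine h9.trans ?_
    rw [div_mul_eq_mul_div, one_mul, div_le_iff₀ (by positivity)]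
    have h10 : (A.card : ℝ) / 4 * X.card ≤ A₁.card * X.card :=
      mul_le_mul_of_nonneg_right hA₁c (Nat.cast_nonneg _)
    linarith

end Pool.Agent.Helper2.IS
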