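import Pool.Agent.Helper2.IS.MainJ

set_option autoImplicit false

/-!
MP_120218_co, project IS (isolation): progressions and affine maps.
-/

open Finset

namespace Pool.Agent.Helper2.IS

open Pool.Agent.Helper2.E Pool.Agent.Helper5

/-- two different elements of a coprime progression have a small common divisor -/
theorem gcd_le_prog {r Q s t : ℤ} (hrQ : IsCoprime r Q) (hne : r + Q * s ≠ r + Q * t) :
    Int.gcd (r + Q * s) (r + Q * t) ≤ (s - t).natAbs := by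
  have hst : s - t ≠ 0 := by
    intro h
    apply hne
    rw [sub_eq_zero.1 h]
  set d := Int.gcd (r + Q * s) (r + Q * t) with hd
  have h1 : (d : ℤ) ∣ r + Q * s := Int.gcd_dvd_left _ _
  have h2 : (d : ℤ) ∣ r + Q * t := Int.gcd_dvd_right _ _
  have h3 : (d : ℤ) ∣ Q * (s - t) := by
    have := dvd_sub h1 h2
    have e : r + Q * s - (r + Q * t) = Q * (s - t) := by ring
    rwa [e] at this
  have hcop : IsCoprime (d : ℤ) Q := by
    have h4 : IsCoprime (r + Q * s) Q := by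
      rw [mul_comm]
      exact IsCoprime.add_mul_right_left hrQ s
    exact IsCoprime.of_isCoprime_of_dvd_left h4 h1
  have h5 : (d : ℤ) ∣ s - t := hcop.dvd_of_dvd_mul_left h3
  exact Nat.le_of_dvd (Int.natAbs_pos.2 hst) (Int.natCast_dvd.1 h5)

/-- a common divisor of `j ≥ 2` numbers divides two different ones -/
theorem exists_pair_of_gcd {T : Finset ℤ} {j : ℕ} (hj : 2 ≤ j) (hT : T.card = j) {h : ℝ}
    (hgt : h < ((T.gcd Int.natAbs : ℕ) : ℝ)) :
    ∃ a ∈ T, ∃ a' ∈ T, a ≠ a' ∧ h < ((Int.gcd a a' : ℕ) : ℝ) := by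
  obtain ⟨a, ha, a', ha', hne⟩ := one_lt_card.1 (show 1 < T.card by omega)
  refine ⟨a, ha, a', ha', hne, lt_of_lt_of_le hgt ?_⟩
  apply Nat.cast_le.2
  apply Nat.le_of_dvd
  · rw [Nat.pos_iff_ne_zero, Ne, Int.gcd_eq_zero_iff]
    rintro ⟨h3, h4⟩
    exact hne (h3.trans h4.symm)
  · exact Nat.dvd_gcd (Finset.gcd_dvd ha) (Finset.gcd_dvd ha')

/-- **The dichotomy**, with its consequences for progressions and for affine maps. -/
theorem mainJ' (k : ℕ) (hk : 1 ≤ k) (ε : ℝ) (hε : 0 < ε) : ∃ M : ℕ, ∀ j : ℕ, 2 ≤ j →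
    ∃ c : ℝ, 0 < c ∧ ∀ A : Finset ℤ, A.Nonempty →
      c * (A.card : ℝ) ^ ((k : ℝ) - ε) ≤ ((kP k A).card : ℝ) ∨
      ∃ E ⊆ A, (E.card : ℝ) ≤ (A.card : ℝ) ^ (1 - c) ∧
        (∀ S ⊆ A \ E, M * j ≤ S.card → ∃ T ⊆ S, T.card = j ∧
          (A.card : ℝ) ^ (c * Real.log (Real.log A.card)) < ((T.gcd Int.natAbs : ℕ) : ℝ)) ∧
        (∀ r Q : ℤ, IsCoprime r Q → ∀ u : ℝ, ∀ S ⊆ A \ E,
          (∀ a ∈ S, ∃ t : ℤ, a = r + Q * t ∧ u ≤ t ∧
            (t : ℝ) ≤ u + (A.card : ℝ) ^ (c * Real.log (Real.log A.card))) → S.card < M * j) ∧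
        ∀ X : Finset (ℤ × ℤ × ℤ), (∀ x ∈ X, x.1 ≠ 0 ∧ x.2.1 ≠ 0) →
          (∀ x ∈ X, ∀ x' ∈ X, x ≠ x' → x.1 * x'.2.2 - x'.1 * x.2.2 ≠ 0 ∧
            ((|x.1 * x'.2.2 - x'.1 * x.2.2| : ℤ) : ℝ) ≤
              (A.card : ℝ) ^ (c * Real.log (Real.log A.card))) →
          ∀ y : ℚ, (((A \ E) ×ˢ X).filter
            (fun z => ((z.2.2.1 : ℚ) * z.1 + z.2.2.2) / z.2.1 = y)).card < M * j := by
  classical
  have hk0 : (0 : ℝ) < k := by exact_mod_cast hk
  obtain ⟨M, hM, hmainJ⟩ := mainJ k hk ε hε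
  refine ⟨M, fun j hj => ?_⟩
  obtain ⟨c₁, hc₁, hc₁1, hmain⟩ := hmainJ j (by omega)
  have hMj : 0 < M * j := Nat.mul_pos hM (by omega)
  -- threshold for the size
  set L₂ : ℝ := max (max 2 (2 / c₁)) (M * j : ℕ) with hL₂
  have hL₂a : 2 ≤ L₂ := (le_max_left _ _).trans (le_max_left _ _)
  have hL₂b : 2 / c₁ ≤ L₂ := (le_max_right _ _).trans (le_max_left _ _)
  have hL₂d : ((M * j : ℕ) : ℝ) ≤ L₂ := le_max_right _ _
  clear_value L₂
  refine ⟨min (c₁ / 2) (Real.exp (-(k * L₂))), by positivity, ?_⟩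
  set c : ℝ := min (c₁ / 2) (Real.exp (-(k * L₂))) with hc
  have hc0 : 0 < c := by rw [hc]; positivity
  have hcc₁ : c ≤ c₁ / 2 := min_le_left _ _
  have hce : c ≤ Real.exp (-(k * L₂)) := min_le_right _ _
  clear_value c
  intro A hA
  have hn1 : (1 : ℝ) ≤ A.card := by exact_mod_cast card_pos.mpr hA
  have hnpos : (0 : ℝ) < A.card := by linarith
  have hLnn : 0 ≤ Real.log (A.card : ℝ) := Real.log_nonneg hn1
  have hPne : (kP k A).Nonempty := by
    obtain ⟨a, ha⟩ := hA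
    exact ⟨_, mem_image_of_mem _ (Fintype.mem_piFinset.2 (fun _ => ha) :
      (fun _ : Fin k => a) ∈ Fintype.piFinset (fun _ : Fin k => A))⟩
  have hP1 : (1 : ℝ) ≤ ((kP k A).card : ℝ) := by exact_mod_cast card_pos.mpr hPne
  rcases lt_or_ge (Real.log (A.card : ℝ)) L₂ with hsm | hLL₂
  · left
    refine le_trans ?_ hP1
    have h1 : (A.card : ℝ) ^ ((k : ℝ) - ε) ≤ Real.exp (k * L₂) := by
      rw [Real.rpow_def_of_pos hnpos]
      apply Real.exp_le_exp.2
      nlinarith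
    calc c * (A.card : ℝ) ^ ((k : ℝ) - ε) ≤ Real.exp (-(k * L₂)) * Real.exp (k * L₂) := by
          apply mul_le_mul hce h1 (Real.rpow_nonneg hnpos.le _) (Real.exp_pos _).le
      _ = 1 := by rw [← Real.exp_add]; simp
  have hloglog : 0 ≤ Real.log (Real.log (A.card : ℝ)) := Real.log_nonneg (by linarith)
  rcases hmain A hA with hleft | ⟨E₀, hEA, hEc, hclq⟩
  · left
    refine le_trans ?_ hleft
    exact mul_le_mul_of_nonneg_right (by linarith) (Real.rpow_nonneg hnpos.le _)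
  right
  set h : ℝ := (A.card : ℝ) ^ (c * Real.log (Real.log A.card)) with hh
  have hh1 : 1 ≤ h := Real.one_le_rpow hn1 (by positivity)
  have hpow : h ≤ (A.card : ℝ) ^ (c₁ * Real.log (Real.log A.card)) :=
    Real.rpow_le_rpow_of_exponent_le hn1 (mul_le_mul_of_nonneg_right (by linarith) hloglog)
  have hclq₀ : ∀ S ⊆ A \ E₀, M * j ≤ S.card → ∃ T ⊆ S, T.card = j ∧
      h < ((T.gcd Int.natAbs : ℕ) : ℝ) := by
    intro S hS hMS
    obtain ⟨T, hT, hTj, hlt⟩ := hclq S hS hMS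
    exact ⟨T, hT, hTj, lt_of_le_of_lt hpow hlt⟩
  -- the small elements outside `E₀`
  set A₀ := (A \ E₀).filter (fun a => ((a.natAbs : ℕ) : ℝ) ≤ h) with hA₀
  have hA₀c : A₀.card < M * j := by
    by_contra hlt
    push Not at hlt
    obtain ⟨T, hT, hTj, hgt₀⟩ := hclq₀ A₀ (filter_subset _ _) hlt
    obtain ⟨a, ha, a', ha', hne, hgt⟩ := exists_pair_of_gcd hj hTj hgt₀
    have h1 := (mem_filter.1 (hT ha)).2
    have h2 := (mem_filter.1 (hT ha')).2
    have h3 : Int.gcd a a' ≤ max a.natAbs a'.natAbs := by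
      rcases eq_or_ne a 0 with h0 | h0
      · rw [h0, Int.gcd_zero_left]
        exact le_max_right _ _
      · refine le_trans ?_ (le_max_left _ _)
        exact Nat.le_of_dvd (Int.natAbs_pos.2 h0) (Int.gcd_dvd_natAbs_left a a')
    have h4 : ((max a.natAbs a'.natAbs : ℕ) : ℝ) ≤ h := by
      rw [Nat.cast_max]
      exact max_le h1 h2
    have h5 : ((Int.gcd a a' : ℕ) : ℝ) ≤ ((max a.natAbs a'.natAbs : ℕ) : ℝ) := by
      exact_mod_cast h3
    linarith
  set E := E₀ ∪ A₀ with hE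
  have hsubE : A \ E ⊆ A \ E₀ := sdiff_subset_sdiff (Subset.refl _) subset_union_left
  have hlarge : ∀ a ∈ A \ E, h < ((a.natAbs : ℕ) : ℝ) := by
    intro a ha
    by_contra hle
    push Not at hle
    apply (mem_sdiff.1 ha).2
    rw [hE]
    exact mem_union_right _ (mem_filter.2 ⟨hsubE ha, hle⟩)
  have hclq' : ∀ S ⊆ A \ E, M * j ≤ S.card → ∃ T ⊆ S, T.card = j ∧
      h < ((T.gcd Int.natAbs : ℕ) : ℝ) := fun S hS => hclq₀ S (hS.trans hsubE)
  have hpairs : ∀ S ⊆ A \ E, M * j ≤ S.card → ∃ a ∈ S, ∃ a' ∈ S, a ≠ a' ∧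
      h < ((Int.gcd a a' : ℕ) : ℝ) := by
    intro S hS hMS
    obtain ⟨T, hT, hTj, hgt₀⟩ := hclq' S hS hMS
    obtain ⟨a, ha, a', ha', hne, hgt⟩ := exists_pair_of_gcd hj hTj hgt₀
    exact ⟨a, hT ha, a', hT ha', hne, hgt⟩
  refine ⟨E, union_subset hEA ((filter_subset _ _).trans sdiff_subset), ?_, hclq', ?_, ?_⟩
  · -- size of the exceptional set
    have h1 : (E.card : ℝ) ≤ E₀.card + A₀.card := by exact_mod_cast card_union_le E₀ A₀
    have h2 : (A₀.card : ℝ) ≤ (M * j : ℕ) := by exact_mod_cast hA₀c.le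
    have h3 : 2 ≤ c₁ * Real.log (A.card : ℝ) := by
      have := hL₂b.trans hLL₂
      rw [div_le_iff₀ hc₁] at this
      linarith
    have h4 : ((M * j : ℕ) : ℝ) ≤ (A.card : ℝ) ^ (1 - c₁) := by
      refine (hL₂d.trans hLL₂).trans ?_
      rw [Real.rpow_def_of_pos hnpos]
      have h5 : Real.log (A.card : ℝ) * (1 - c₁) ≥ Real.log (A.card : ℝ) / 2 + 1 / 2 := by
        nlinarith
      refine le_trans ?_ (Real.exp_le_exp.2 h5)
      -- x ≤ exp (x/2 + 1/2)
      set x := Real.log (A.card : ℝ) with hx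
      have h6 : x / 2 + 1 / 2 = (x - 1) / 4 + (x - 1) / 4 + 1 := by ring
      rw [h6, Real.exp_add, Real.exp_add]
      have h7 : (x - 1) / 4 + 1 ≤ Real.exp ((x - 1) / 4) := Real.add_one_le_exp _
      have h8 : (2 : ℝ) ≤ Real.exp 1 := by
        have := Real.exp_one_gt_d9
        linarith
      have h9 : ((x - 1) / 4 + 1) ^ 2 ≤ Real.exp ((x - 1) / 4) * Real.exp ((x - 1) / 4) := by
        rw [sq]
        exact mul_le_mul h7 h7 (by linarith) (Real.exp_pos _).le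
      have h10 : ((x - 1) / 4 + 1) ^ 2 * 2 ≤
          Real.exp ((x - 1) / 4) * Real.exp ((x - 1) / 4) * Real.exp 1 :=
        mul_le_mul h9 h8 (by norm_num) (by positivity)
      nlinarith [sq_nonneg (x - 1)]
    have h5 : (E.card : ℝ) ≤ 2 * (A.card : ℝ) ^ (1 - c₁) := by linarith
    refine h5.trans ?_
    have h6 : (2 : ℝ) ≤ (A.card : ℝ) ^ (c₁ - c) := by
      rw [Real.rpow_def_of_pos hnpos]
      have h7 : (2 : ℝ) ≤ Real.exp 1 := by
        have := Real.exp_one_gt_d9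
        linarith
      refine h7.trans (Real.exp_le_exp.2 ?_)
      nlinarith
    calc 2 * (A.card : ℝ) ^ (1 - c₁) ≤ (A.card : ℝ) ^ (c₁ - c) * (A.card : ℝ) ^ (1 - c₁) :=
          mul_le_mul_of_nonneg_right h6 (Real.rpow_nonneg hnpos.le _)
      _ = (A.card : ℝ) ^ (1 - c) := by
          rw [← Real.rpow_add hnpos]
          congr 1
          ring
  · intro r Q hrQ u S hS hprog
    by_contra hlt
    push Not at hlt
    obtain ⟨a, ha, a', ha', hne, hgt⟩ := hpairs S hS hlt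
    obtain ⟨s, hs, hs1, hs2⟩ := hprog a ha
    obtain ⟨t, ht, ht1, ht2⟩ := hprog a' ha'
    rw [hs, ht] at hgt hne
    have h1 := gcd_le_prog hrQ hne
    have h2 : ((Int.gcd (r + Q * s) (r + Q * t) : ℕ) : ℝ) ≤ ((s - t).natAbs : ℝ) := by
      exact_mod_cast h1
    have h3 : ((s - t).natAbs : ℝ) ≤ h := by
      rw [Nat.cast_natAbs, Int.cast_abs, Int.cast_sub, abs_le]
      constructor <;> linarith
    linarith
  · intro X hX0 hX y
    by_contra hlt
    push Not at hlt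
    set Z := ((A \ E) ×ˢ X).filter
      (fun z => ((z.2.2.1 : ℚ) * z.1 + z.2.2.2) / z.2.1 = y) with hZ
    -- two solutions
    have htwo : ∀ z ∈ Z, ∀ w ∈ Z, z.2 ≠ w.2 → ((Int.gcd z.1 w.1 : ℕ) : ℝ) ≤ h := by
      intro z hz w hw hne
      have hz1 := mem_filter.1 hz
      have hw1 := mem_filter.1 hw
      have hzX := (mem_product.1 hz1.1).2
      have hwX := (mem_product.1 hw1.1).2
      obtain ⟨hpos, hle⟩ := hX z.2 hzX w.2 hwX hne
      have hu1 : (z.2.1 : ℚ) ≠ 0 := by exact_mod_cast (hX0 z.2 hzX).1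
      have hu2 : (w.2.1 : ℚ) ≠ 0 := by exact_mod_cast (hX0 w.2 hwX).1
      have e1 := hz1.2
      have e2 := hw1.2
      rw [div_eq_iff hu1] at e1
      rw [div_eq_iff hu2] at e2
      have e3 : (w.2.1 : ℚ) * ((z.2.2.1 : ℚ) * z.1 + z.2.2.2) =
          z.2.1 * ((w.2.2.1 : ℚ) * w.1 + w.2.2.2) := by
        rw [e1, e2]
        ring
      have e4 : w.2.1 * (z.2.2.1 * z.1 + z.2.2.2) = z.2.1 * (w.2.2.1 * w.1 + w.2.2.2) := by
        exact_mod_cast e3
      have hdiff : z.2.1 * w.2.2.2 - w.2.1 * z.2.2.2 =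
          w.2.1 * z.2.2.1 * z.1 - z.2.1 * w.2.2.1 * w.1 := by
        linarith
      have h1 : Int.gcd z.1 w.1 ∣ (z.2.1 * w.2.2.2 - w.2.1 * z.2.2.2).natAbs := by
        rw [← Int.natCast_dvd, hdiff]
        exact dvd_sub ((Int.gcd_dvd_left _ _).mul_left _) ((Int.gcd_dvd_right _ _).mul_left _)
      have h2 := Nat.le_of_dvd (Int.natAbs_pos.2 hpos) h1
      have h3 : ((Int.gcd z.1 w.1 : ℕ) : ℝ) ≤
          ((z.2.1 * w.2.2.2 - w.2.1 * z.2.2.2).natAbs : ℝ) := by exact_mod_cast h2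
      refine h3.trans ?_
      rw [Nat.cast_natAbs]
      exact hle
    have hinj : Set.InjOn Prod.fst (Z : Set (ℤ × ℤ × ℤ × ℤ)) := by
      intro z hz w hw hzw
      have hzw' : z.1 = w.1 := hzw
      by_contra hne
      have hne2 : z.2 ≠ w.2 := fun h2 => hne (Prod.ext hzw' h2)
      have h1 := htwo z (mem_coe.1 hz) w (mem_coe.1 hw) hne2
      rw [← hzw', Int.gcd_self] at h1
      have h2 := hlarge z.1 (mem_product.1 (mem_filter.1 (mem_coe.1 hz)).1).1
      linarith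
    set S := Z.image Prod.fst with hS
    have hSc : S.card = Z.card := card_image_of_injOn hinj
    obtain ⟨a, ha, a', ha', hne, hgt⟩ := hpairs S (by
      intro a ha
      obtain ⟨z, hz, rfl⟩ := mem_image.1 ha
      exact (mem_product.1 (mem_filter.1 hz).1).1) (by rw [hSc]; exact hlt)
    obtain ⟨z, hz, rfl⟩ := mem_image.1 ha
    obtain ⟨w, hw, rfl⟩ := mem_image.1 ha'
    have hne2 : z.2 ≠ w.2 := by
      intro h2
      apply hne
      have e1 := (mem_filter.1 hz).2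
      have e2 := (mem_filter.1 hw).2
      have hzX := (mem_product.1 (mem_filter.1 hw).1).2
      have hu : (w.2.1 : ℚ) ≠ 0 := by exact_mod_cast (hX0 w.2 hzX).1
      have hv : (w.2.2.1 : ℚ) ≠ 0 := by exact_mod_cast (hX0 w.2 hzX).2
      rw [h2] at e1
      rw [div_eq_iff hu] at e1 e2
      have e3 : (w.2.2.1 : ℚ) * z.1 = w.2.2.1 * w.1 := by linarith
      have e4 := mul_left_cancel₀ hv e3
      exact_mod_cast e4
    have := htwo z hz w hw hne2
    linarith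

end Pool.Agent.Helper2.IS
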