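import Mathlib

set_option autoImplicit false

/-!
MP_120218_co, project IS (isolation): a set of small popular weight has few popular exponents.
-/

open Finset

namespace Pool.Agent.Helper2.IS

theorem num_small {D δ : ℝ} (hD : 0 ≤ D) (hδ : 0 < δ) : ∃ L₀ : ℝ, 1 ≤ L₀ ∧ ∀ L : ℝ, L₀ ≤ L →
    √L * Real.log (1 + D * L ^ 2) ≤ δ * L := by
  -- `L = t ^ 4`
  set C : ℝ := Real.log (1 + D) + 8 with hC
  have hC0 : 0 ≤ Real.log (1 + D) := Real.log_nonneg (by linarith)
  set t₀ : ℝ := max 1 (C / δ) with ht₀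
  refine ⟨t₀ ^ 4, one_le_pow₀ (le_max_left _ _), ?_⟩
  intro L hL
  have ht₀1 : 1 ≤ t₀ := le_max_left _ _
  have hL1 : 1 ≤ L := (one_le_pow₀ ht₀1).trans hL
  set t : ℝ := √(√L) with ht
  have hsq : t ^ 2 = √L := Real.sq_sqrt (Real.sqrt_nonneg L)
  have hL4 : t ^ 4 = L := by
    have : t ^ 4 = (t ^ 2) ^ 2 := by ring
    rw [this, hsq, Real.sq_sqrt (by linarith)]
  have ht0 : 0 ≤ t := Real.sqrt_nonneg _
  have htt₀ : t₀ ≤ t := by
    by_contra h
    push Not at h
    have : t ^ 4 < t₀ ^ 4 := pow_lt_pow_left₀ h ht0 (by norm_num)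
    rw [hL4] at this
    linarith
  have ht1 : 1 ≤ t := ht₀1.trans htt₀
  have h1 : Real.log (1 + D * L ^ 2) ≤ C * t := by
    have h2 : 1 + D * L ^ 2 ≤ (1 + D) * t ^ 8 := by
      have : L ^ 2 = t ^ 8 := by rw [← hL4]; ring
      rw [this]
      have : 1 ≤ t ^ 8 := one_le_pow₀ ht1
      nlinarith
    have h3 : Real.log ((1 + D) * t ^ 8) = Real.log (1 + D) + 8 * Real.log t := by
      rw [Real.log_mul (by positivity) (by positivity), Real.log_pow]
      push_cast
      ring
    have h4 : Real.log t ≤ t := (Real.log_le_sub_one_of_pos (by linarith)).trans (by linarith)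
    calc Real.log (1 + D * L ^ 2) ≤ Real.log ((1 + D) * t ^ 8) :=
          Real.log_le_log (by positivity) h2
      _ = Real.log (1 + D) + 8 * Real.log t := h3
      _ ≤ Real.log (1 + D) * t + 8 * t := by nlinarith
      _ = C * t := by rw [hC]; ring
  have h5 : C ≤ δ * t := by
    have : C / δ ≤ t := (le_max_right _ _).trans htt₀
    rw [div_le_iff₀ hδ] at this
    linarith
  calc √L * Real.log (1 + D * L ^ 2) ≤ t ^ 2 * (C * t) := by
        rw [← hsq]
        exact mul_le_mul_of_nonneg_left h1 (by positivity)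
    _ ≤ t ^ 2 * (δ * t * t) := by
        apply mul_le_mul_of_nonneg_left _ (by positivity)
        exact mul_le_mul_of_nonneg_right h5 ht0
    _ = δ * L := by rw [← hL4]; ring

theorem log_prod_le (k : ℕ) {δ : ℝ} (hδ : 0 < δ) : ∃ c : ℝ, 0 < c ∧ ∃ L₀ : ℝ, 1 ≤ L₀ ∧
    ∀ L : ℝ, L₀ ≤ L → ∀ F : Finset ℕ, (∀ q ∈ F, q.Prime) → ∀ lam : ℕ → ℕ,
      ∑ q ∈ F, (lam q : ℝ) * Real.log q ≤ c * (L * Real.log L) →
      Real.log (∏ q ∈ F, (k * lam q + 1) : ℕ) ≤ δ * L := by
  classical
  set c : ℝ := δ / (4 * (k + 1)) with hc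
  have hk0 : (0 : ℝ) ≤ k := Nat.cast_nonneg k
  have hc0 : 0 < c := by positivity
  obtain ⟨L₁, hL₁, hnum⟩ := num_small (D := k * (2 * c)) (δ := δ / 2) (by positivity)
    (by positivity)
  refine ⟨c, hc0, max L₁ 3, (le_max_right _ _).trans' (by norm_num), ?_⟩
  intro L hL F hF lam hsum
  have hLL₁ : L₁ ≤ L := (le_max_left _ _).trans hL
  have hL3 : 3 ≤ L := (le_max_right _ _).trans hL
  have hL0 : 0 < L := by linarith
  have hlogL : 1 ≤ Real.log L := by
    rw [Real.le_log_iff_exp_le hL0]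
    have := Real.exp_one_lt_d9
    linarith
  have hlogL' : Real.log L ≤ L := (Real.log_le_sub_one_of_pos hL0).trans (by linarith)
  have hpos : ∀ q ∈ F, (0 : ℝ) ≤ (lam q : ℝ) * Real.log q := fun q _ =>
    mul_nonneg (Nat.cast_nonneg _) (Real.log_natCast_nonneg q)
  have hlogprod : Real.log (∏ q ∈ F, (k * lam q + 1) : ℕ) =
      ∑ q ∈ F, Real.log ((k : ℝ) * lam q + 1) := by
    push_cast
    rw [Real.log_prod]
    intro q _
    positivity
  rw [hlogprod]
  have hsplit := sum_filter_add_sum_filter_not F (fun q : ℕ => (q : ℝ) ≤ √L)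
    (fun q => Real.log ((k : ℝ) * lam q + 1))
  rw [← hsplit]
  -- small primes
  have hlamle : ∀ q ∈ F, (lam q : ℝ) ≤ 2 * c * L ^ 2 := by
    intro q hq
    have h1 : (lam q : ℝ) * Real.log q ≤ c * (L * Real.log L) :=
      (single_le_sum hpos hq).trans hsum
    have h2 : Real.log 2 ≤ Real.log q :=
      Real.log_le_log (by norm_num) (by exact_mod_cast (hF q hq).two_le)
    have h3 := Real.log_two_gt_d9
    have h4 : (lam q : ℝ) * (1 / 2) ≤ (lam q : ℝ) * Real.log q :=
      mul_le_mul_of_nonneg_left (by linarith) (Nat.cast_nonneg _)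
    have h5 : c * (L * Real.log L) ≤ c * L ^ 2 := by
      rw [sq]
      exact mul_le_mul_of_nonneg_left (mul_le_mul_of_nonneg_left hlogL' hL0.le) hc0.le
    linarith
  have hsmall : ∑ q ∈ F.filter (fun q : ℕ => (q : ℝ) ≤ √L), Real.log ((k : ℝ) * lam q + 1) ≤
      δ / 2 * L := by
    have h1 : ∀ q ∈ F.filter (fun q : ℕ => (q : ℝ) ≤ √L),
        Real.log ((k : ℝ) * lam q + 1) ≤ Real.log (1 + k * (2 * c) * L ^ 2) := by
      intro q hq
      apply Real.log_le_log (by positivity)
      have := mul_le_mul_of_nonneg_left (hlamle q (mem_filter.1 hq).1) hk0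
      linarith
    have h2 : ((F.filter (fun q : ℕ => (q : ℝ) ≤ √L)).card : ℝ) ≤ √L := by
      have h3 : F.filter (fun q : ℕ => (q : ℝ) ≤ √L) ⊆ Icc 1 ⌊√L⌋₊ := by
        intro q hq
        rw [mem_filter] at hq
        rw [mem_Icc]
        exact ⟨(hF q hq.1).one_lt.le, Nat.le_floor hq.2⟩
      have h4 := card_le_card h3
      rw [Nat.card_Icc, Nat.add_sub_cancel] at h4
      calc ((F.filter (fun q : ℕ => (q : ℝ) ≤ √L)).card : ℝ) ≤ ⌊√L⌋₊ := by exact_mod_cast h4
        _ ≤ √L := Nat.floor_le (Real.sqrt_nonneg L)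
    calc ∑ q ∈ F.filter (fun q : ℕ => (q : ℝ) ≤ √L), Real.log ((k : ℝ) * lam q + 1)
        ≤ ∑ _q ∈ F.filter (fun q : ℕ => (q : ℝ) ≤ √L), Real.log (1 + k * (2 * c) * L ^ 2) :=
          sum_le_sum h1
      _ = ((F.filter (fun q : ℕ => (q : ℝ) ≤ √L)).card : ℝ) *
          Real.log (1 + k * (2 * c) * L ^ 2) := by rw [sum_const, nsmul_eq_mul]
      _ ≤ √L * Real.log (1 + k * (2 * c) * L ^ 2) := by
          apply mul_le_mul_of_nonneg_right h2
          apply Real.log_nonneg
          have : 0 ≤ k * (2 * c) * L ^ 2 := by positivity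
          linarith
      _ ≤ δ / 2 * L := hnum L hLL₁
  -- large primes
  have hlarge : ∑ q ∈ F.filter (fun q : ℕ => ¬ (q : ℝ) ≤ √L), Real.log ((k : ℝ) * lam q + 1) ≤
      δ / 2 * L := by
    have hsqrt : Real.log (√L) = Real.log L / 2 := Real.log_sqrt hL0.le
    have h1 : ∀ q ∈ F.filter (fun q : ℕ => ¬ (q : ℝ) ≤ √L),
        Real.log ((k : ℝ) * lam q + 1) ≤ (2 * k / Real.log L) * ((lam q : ℝ) * Real.log q) := by
      intro q hq
      have hq' := (mem_filter.1 hq).2
      push Not at hq'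
      have h2 : Real.log L / 2 ≤ Real.log q := by
        rw [← hsqrt]
        exact Real.log_le_log (Real.sqrt_pos.2 hL0) hq'.le
      have h3 : Real.log ((k : ℝ) * lam q + 1) ≤ k * lam q := by
        have := Real.log_le_sub_one_of_pos (show (0 : ℝ) < k * lam q + 1 by positivity)
        linarith
      refine h3.trans ?_
      have h4 : (2 * k / Real.log L) * ((lam q : ℝ) * Real.log q) =
          k * lam q * (2 * Real.log q / Real.log L) := by ring
      rw [h4]
      apply le_mul_of_one_le_right (by positivity)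
      rw [le_div_iff₀ (by linarith)]
      linarith
    calc ∑ q ∈ F.filter (fun q : ℕ => ¬ (q : ℝ) ≤ √L), Real.log ((k : ℝ) * lam q + 1)
        ≤ ∑ q ∈ F.filter (fun q : ℕ => ¬ (q : ℝ) ≤ √L),
            (2 * k / Real.log L) * ((lam q : ℝ) * Real.log q) := sum_le_sum h1
      _ = (2 * k / Real.log L) * ∑ q ∈ F.filter (fun q : ℕ => ¬ (q : ℝ) ≤ √L),
            ((lam q : ℝ) * Real.log q) := by rw [mul_sum]
      _ ≤ (2 * k / Real.log L) * (c * (L * Real.log L)) := by
          apply mul_le_mul_of_nonneg_left _ (by positivity)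
          refine le_trans ?_ hsum
          exact sum_le_sum_of_subset_of_nonneg (filter_subset _ _) fun q hq _ => hpos q hq
      _ = 2 * k * c * L := by field_simp
      _ ≤ δ / 2 * L := by
          apply mul_le_mul_of_nonneg_right _ hL0.le
          rw [hc]
          have : 2 * (k : ℝ) * (δ / (4 * (k + 1))) = δ / 2 * (k / (k + 1)) := by
            field_simp
            ring
          rw [this]
          apply mul_le_of_le_one_right (by positivity)
          rw [div_le_one (by positivity)]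
          linarith
  linarith

end Pool.Agent.Helper2.IS
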