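import Mathlib

set_option autoImplicit false

/-!
MP_120218_co, project IS (isolation): the popular weight of a set in which the elements come in
groups with small common divisors.
-/

open Finset

namespace Pool.Agent.Helper2.IS

/-- number of elements of `B` divisible by `q ^ l` -/
def dc (B : Finset ℤ) (q l : ℕ) : ℕ := (B.filter (fun b => (q : ℤ) ^ l ∣ b)).card

theorem exists_lam {B : Finset ℤ} (hB : B.Nonempty) (hB0 : ∀ b ∈ B, b ≠ 0) {κ : ℝ} (hκ0 : 0 < κ)
    (hκ1 : κ ≤ 1) : ∃ lam : ℕ → ℕ, ∀ q : ℕ, q.Prime →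
      (∀ l ≤ lam q, κ * B.card ≤ (dc B q l : ℝ)) ∧ (dc B q (lam q + 1) : ℝ) < κ * B.card := by
  classical
  have hBp : (0 : ℝ) < B.card := by exact_mod_cast card_pos.2 hB
  have key : ∀ q : ℕ, q.Prime → ∃ l : ℕ, (dc B q (l + 1) : ℝ) < κ * B.card := by
    intro q hq
    refine ⟨B.sup Int.natAbs, ?_⟩
    have h0 : dc B q (B.sup Int.natAbs + 1) = 0 := by
      unfold dc
      rw [card_eq_zero, filter_eq_empty_iff]
      intro b hb hdvd
      have h1 : q ^ (B.sup Int.natAbs + 1) ∣ b.natAbs := by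
        have h2 := Int.natAbs_dvd_natAbs.2 hdvd
        rwa [Int.natAbs_pow, Int.natAbs_natCast] at h2
      have h2 := Nat.le_of_dvd (Int.natAbs_pos.2 (hB0 b hb)) h1
      have h3 : b.natAbs ≤ B.sup Int.natAbs := le_sup (f := Int.natAbs) hb
      have h4 : B.sup Int.natAbs + 1 < q ^ (B.sup Int.natAbs + 1) := Nat.lt_pow_self hq.one_lt
      omega
    rw [h0, Nat.cast_zero]
    positivity
  refine ⟨fun q => if hq : q.Prime then Nat.find (key q hq) else 0, fun q hq => ?_⟩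
  simp only [dif_pos hq]
  refine ⟨fun l hl => ?_, Nat.find_spec (key q hq)⟩
  rcases l with _ | m
  · have h0 : dc B q 0 = B.card := by
      unfold dc
      rw [filter_true_of_mem]
      intro b _
      rw [pow_zero]
      exact one_dvd b
    rw [h0]
    nlinarith
  · have hlt : m < Nat.find (key q hq) := by omega
    have := Nat.find_min (key q hq) hlt
    push Not at this
    exact this

theorem sum_fact_le {n : ℕ} (hn : n ≠ 0) (F : Finset ℕ) (hF : ∀ q ∈ F, q.Prime) :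
    ∑ q ∈ F, (n.factorization q : ℝ) * Real.log q ≤ Real.log n := by
  classical
  rw [Real.log_nat_eq_sum_factorization n, Finsupp.sum]
  have h1 : ∑ q ∈ F, (n.factorization q : ℝ) * Real.log q ≤
      ∑ q ∈ F ∪ n.factorization.support, (n.factorization q : ℝ) * Real.log q := by
    apply sum_le_sum_of_subset_of_nonneg subset_union_left
    intro q _ _
    exact mul_nonneg (Nat.cast_nonneg _) (Real.log_natCast_nonneg q)
  refine h1.trans (le_of_eq ?_)
  symm
  apply sum_subset subset_union_right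
  intro q _ hq
  rw [Finsupp.notMem_support_iff.1 hq, Nat.cast_zero, zero_mul]

theorem pair_le {n : ℕ} (hn : n ≠ 0) (F : Finset ℕ) (hF : ∀ q ∈ F, q.Prime) (lam : ℕ → ℕ)
    {a a' : ℤ} (hd : ∀ m : ℕ, (m : ℤ) ∣ a → (m : ℤ) ∣ a' → m ∣ n) :
    ∑ q ∈ F, ∑ l ∈ Icc 1 (lam q), (if (q : ℤ) ^ l ∣ a ∧ (q : ℤ) ^ l ∣ a' then Real.log q else 0) ≤
      Real.log n := by
  refine le_trans ?_ (sum_fact_le hn F hF)
  refine sum_le_sum fun q hq => ?_
  rw [← sum_filter, sum_const, nsmul_eq_mul]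
  apply mul_le_mul_of_nonneg_right _ (Real.log_natCast_nonneg q)
  apply Nat.cast_le.2
  have h1 : (Icc 1 (lam q)).filter (fun l => (q : ℤ) ^ l ∣ a ∧ (q : ℤ) ^ l ∣ a') ⊆
      Icc 1 (n.factorization q) := by
    intro l hl
    rw [mem_filter, mem_Icc] at hl
    rw [mem_Icc]
    refine ⟨hl.1.1, ?_⟩
    have h2 : q ^ l ∣ n := hd (q ^ l) (by push_cast; exact hl.2.1) (by push_cast; exact hl.2.2)
    exact ((hF q hq).pow_dvd_iff_le_factorization hn).1 h2
  refine (card_le_card h1).trans ?_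
  rw [Nat.card_Icc]
  omega

/-- **The popular weight is small if the elements come in groups with small common divisors.** -/
theorem gam_le {B : Finset ℤ} (hB : B.Nonempty) {γ : Type*} [DecidableEq γ] (cell : ℤ → γ)
    {κ h : ℝ} {M : ℕ} (hκ0 : 0 < κ) (hM : 2 ≤ κ ^ 2 * M) (hh : 1 ≤ h)
    (hcell : ∀ b ∈ B, M ≤ (B.filter (fun b' => cell b' = cell b)).card)
    (hclose : ∀ b ∈ B, ∀ b' ∈ B, b ≠ b' → cell b = cell b' → (Int.gcd b b' : ℝ) ≤ h)
    (F : Finset ℕ) (hF : ∀ q ∈ F, q.Prime) (lam : ℕ → ℕ)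
    (hlam : ∀ q ∈ F, ∀ l ≤ lam q, κ * B.card ≤ (dc B q l : ℝ)) :
    κ ^ 2 / 2 * ∑ q ∈ F, (lam q : ℝ) * Real.log q ≤ Real.log h := by
  classical
  have hBp : (0 : ℝ) < B.card := by exact_mod_cast card_pos.2 hB
  have hlogh : 0 ≤ Real.log h := Real.log_nonneg hh
  set Y := B.image cell with hY
  set C : γ → Finset ℤ := fun y => B.filter (fun b => cell b = y) with hC
  have hM0 : 0 < M := by
    rcases Nat.eq_zero_or_pos M with h0 | h0
    · rw [h0] at hM; norm_num at hM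
    · exact h0
  have hMr : (0 : ℝ) < M := by exact_mod_cast hM0
  have hCM : ∀ y ∈ Y, M ≤ (C y).card := by
    intro y hy
    obtain ⟨b, hb, rfl⟩ := mem_image.1 hy
    exact hcell b hb
  have hCpos : ∀ y ∈ Y, (0 : ℝ) < (C y).card := fun y hy => by
    exact_mod_cast lt_of_lt_of_le hM0 (hCM y hy)
  have hsumC : ∑ y ∈ Y, ((C y).card : ℝ) = B.card := by
    exact_mod_cast (card_eq_sum_card_image cell B).symm
  have hYM : (M : ℝ) * Y.card ≤ B.card := by
    rw [← hsumC, mul_comm, ← nsmul_eq_mul, ← sum_const]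
    exact sum_le_sum fun y hy => by exact_mod_cast hCM y hy
  -- one prime power
  have hone : ∀ q ∈ F, ∀ l ∈ Icc 1 (lam q), κ ^ 2 / 2 * B.card ≤
      ∑ y ∈ Y, (∑ z ∈ (C y).offDiag, if (q : ℤ) ^ l ∣ z.1 ∧ (q : ℤ) ^ l ∣ z.2 then (1 : ℝ) else 0) /
        (C y).card := by
    intro q hq l hl
    set n : γ → ℝ := fun y => (((C y).filter (fun b => (q : ℤ) ^ l ∣ b)).card : ℝ) with hn
    have h1 : ∑ y ∈ Y, n y = dc B q l := by
      unfold dc
      have h2 := card_eq_sum_card_fiberwise (f := cell) (s := B.filter (fun b => (q : ℤ) ^ l ∣ b))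
        (t := Y) (fun b hb => mem_image_of_mem cell (mem_filter.1 hb).1)
      rw [h2]
      push_cast
      refine sum_congr rfl fun y _ => ?_
      simp only [hn, hC]
      rw [filter_filter, filter_filter]
      congr 2
      ext b
      simp only [mem_filter]
      tauto
    have h3 : κ * B.card ≤ ∑ y ∈ Y, n y := by
      rw [h1]
      exact hlam q hq l (mem_Icc.1 hl).2
    have h4 : (∑ y ∈ Y, n y) ^ 2 / ∑ y ∈ Y, ((C y).card : ℝ) ≤
        ∑ y ∈ Y, n y ^ 2 / (C y).card := sq_sum_div_le_sum_sq_div Y n hCpos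
    have h5 : ∑ y ∈ Y, n y / (C y).card ≤ Y.card := by
      rw [← nsmul_one, ← sum_const]
      refine sum_le_sum fun y hy => ?_
      rw [div_le_one (hCpos y hy)]
      simp only [hn]
      exact Nat.cast_le.2 (card_le_card (filter_subset _ _))
    have h6 : ∀ y ∈ Y, (∑ z ∈ (C y).offDiag,
        if (q : ℤ) ^ l ∣ z.1 ∧ (q : ℤ) ^ l ∣ z.2 then (1 : ℝ) else 0) = n y ^ 2 - n y := by
      intro y _
      have h7 : (C y).offDiag.filter (fun z => (q : ℤ) ^ l ∣ z.1 ∧ (q : ℤ) ^ l ∣ z.2) =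
          ((C y).filter (fun b => (q : ℤ) ^ l ∣ b)).offDiag := by
        ext z
        simp only [mem_filter, mem_offDiag]
        tauto
      rw [← sum_filter, h7, sum_const, nsmul_eq_mul, mul_one, offDiag_card, sq]
      rw [Nat.cast_sub (Nat.le_mul_self _)]
      push_cast
      rfl
    have h8 : ∑ y ∈ Y, (∑ z ∈ (C y).offDiag,
        if (q : ℤ) ^ l ∣ z.1 ∧ (q : ℤ) ^ l ∣ z.2 then (1 : ℝ) else 0) / (C y).card =
        ∑ y ∈ Y, n y ^ 2 / (C y).card - ∑ y ∈ Y, n y / (C y).card := by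
      rw [← sum_sub_distrib]
      refine sum_congr rfl fun y hy => ?_
      rw [h6 y hy, sub_div]
    rw [h8]
    have h9 : κ ^ 2 * B.card ≤ (∑ y ∈ Y, n y) ^ 2 / ∑ y ∈ Y, ((C y).card : ℝ) := by
      rw [hsumC, le_div_iff₀ hBp]
      have := pow_le_pow_left₀ (by positivity) h3 2
      nlinarith
    have h10 : (Y.card : ℝ) ≤ κ ^ 2 / 2 * B.card := by
      have h11 : κ ^ 2 * M * Y.card ≤ κ ^ 2 * B.card := by
        have := mul_le_mul_of_nonneg_left hYM (sq_nonneg κ)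
        linarith
      have h12 : 2 * (Y.card : ℝ) ≤ κ ^ 2 * M * Y.card :=
        mul_le_mul_of_nonneg_right hM (Nat.cast_nonneg _)
      linarith
    linarith
  -- sum over the prime powers
  have hsum : κ ^ 2 / 2 * B.card * ∑ q ∈ F, (lam q : ℝ) * Real.log q ≤
      ∑ q ∈ F, ∑ l ∈ Icc 1 (lam q), Real.log q *
        ∑ y ∈ Y, (∑ z ∈ (C y).offDiag,
          if (q : ℤ) ^ l ∣ z.1 ∧ (q : ℤ) ^ l ∣ z.2 then (1 : ℝ) else 0) / (C y).card := by
    rw [mul_sum]
    refine sum_le_sum fun q hq => ?_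
    have h1 : κ ^ 2 / 2 * B.card * ((lam q : ℝ) * Real.log q) =
        ∑ _l ∈ Icc 1 (lam q), Real.log q * (κ ^ 2 / 2 * B.card) := by
      rw [sum_const, Nat.card_Icc, nsmul_eq_mul, Nat.add_sub_cancel]
      ring
    rw [h1]
    refine sum_le_sum fun l hl => ?_
    exact mul_le_mul_of_nonneg_left (hone q hq l hl) (Real.log_natCast_nonneg q)
  have hswap : ∑ q ∈ F, ∑ l ∈ Icc 1 (lam q), Real.log q *
        ∑ y ∈ Y, (∑ z ∈ (C y).offDiag,
          if (q : ℤ) ^ l ∣ z.1 ∧ (q : ℤ) ^ l ∣ z.2 then (1 : ℝ) else 0) / (C y).card =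
      ∑ y ∈ Y, (∑ z ∈ (C y).offDiag, ∑ q ∈ F, ∑ l ∈ Icc 1 (lam q),
        if (q : ℤ) ^ l ∣ z.1 ∧ (q : ℤ) ^ l ∣ z.2 then Real.log q else 0) / (C y).card := by
    have h1 : ∀ q l : ℕ, Real.log q *
        ∑ y ∈ Y, (∑ z ∈ (C y).offDiag,
          if (q : ℤ) ^ l ∣ z.1 ∧ (q : ℤ) ^ l ∣ z.2 then (1 : ℝ) else 0) / (C y).card =
        ∑ y ∈ Y, (∑ z ∈ (C y).offDiag,
          if (q : ℤ) ^ l ∣ z.1 ∧ (q : ℤ) ^ l ∣ z.2 then Real.log q else 0) / (C y).card := by
      intro q l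
      rw [mul_sum]
      refine sum_congr rfl fun y _ => ?_
      rw [← mul_div_assoc, mul_sum]
      congr 1
      refine sum_congr rfl fun z _ => ?_
      rw [mul_ite, mul_one, mul_zero]
    calc _ = ∑ q ∈ F, ∑ l ∈ Icc 1 (lam q), ∑ y ∈ Y, (∑ z ∈ (C y).offDiag,
          if (q : ℤ) ^ l ∣ z.1 ∧ (q : ℤ) ^ l ∣ z.2 then Real.log q else 0) / (C y).card :=
          sum_congr rfl fun q _ => sum_congr rfl fun l _ => h1 q l
      _ = ∑ q ∈ F, ∑ y ∈ Y, ∑ l ∈ Icc 1 (lam q), (∑ z ∈ (C y).offDiag,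
          if (q : ℤ) ^ l ∣ z.1 ∧ (q : ℤ) ^ l ∣ z.2 then Real.log q else 0) / (C y).card :=
          sum_congr rfl fun q _ => sum_comm
      _ = ∑ y ∈ Y, ∑ q ∈ F, ∑ l ∈ Icc 1 (lam q), (∑ z ∈ (C y).offDiag,
          if (q : ℤ) ^ l ∣ z.1 ∧ (q : ℤ) ^ l ∣ z.2 then Real.log q else 0) / (C y).card :=
          sum_comm
      _ = _ := by
          refine sum_congr rfl fun y _ => ?_
          have h2 : ∀ q : ℕ, ∑ l ∈ Icc 1 (lam q), (∑ z ∈ (C y).offDiag,
              if (q : ℤ) ^ l ∣ z.1 ∧ (q : ℤ) ^ l ∣ z.2 then Real.log q else 0) / (C y).card =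
              (∑ z ∈ (C y).offDiag, ∑ l ∈ Icc 1 (lam q),
              if (q : ℤ) ^ l ∣ z.1 ∧ (q : ℤ) ^ l ∣ z.2 then Real.log q else 0) / (C y).card := by
            intro q
            rw [← sum_div, sum_comm]
          rw [sum_congr rfl fun q _ => h2 q, ← sum_div, sum_comm]
  have hpair : ∑ y ∈ Y, (∑ z ∈ (C y).offDiag, ∑ q ∈ F, ∑ l ∈ Icc 1 (lam q),
        if (q : ℤ) ^ l ∣ z.1 ∧ (q : ℤ) ^ l ∣ z.2 then Real.log q else 0) / (C y).card ≤
      B.card * Real.log h := by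
    rw [← hsumC, sum_mul]
    refine sum_le_sum fun y hy => ?_
    rw [div_le_iff₀ (hCpos y hy)]
    have h1 : ∀ z ∈ (C y).offDiag, ∑ q ∈ F, ∑ l ∈ Icc 1 (lam q),
        (if (q : ℤ) ^ l ∣ z.1 ∧ (q : ℤ) ^ l ∣ z.2 then Real.log q else 0) ≤ Real.log h := by
      intro z hz
      rw [mem_offDiag] at hz
      have hz1 := mem_filter.1 hz.1
      have hz2 := mem_filter.1 hz.2.1
      have hne : Int.gcd z.1 z.2 ≠ 0 := by
        rw [Ne, Int.gcd_eq_zero_iff]
        rintro ⟨h3, h4⟩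
        exact hz.2.2 (h3.trans h4.symm)
      have h2 := pair_le hne F hF lam (a := z.1) (a' := z.2)
        (fun m h3 h4 => Int.natCast_dvd_natCast.1 (Int.dvd_coe_gcd h3 h4))
      refine h2.trans ?_
      apply Real.log_le_log
      · exact_mod_cast Nat.pos_of_ne_zero hne
      · exact hclose z.1 hz1.1 z.2 hz2.1 hz.2.2 (hz1.2.trans hz2.2.symm)
    calc ∑ z ∈ (C y).offDiag, ∑ q ∈ F, ∑ l ∈ Icc 1 (lam q),
          (if (q : ℤ) ^ l ∣ z.1 ∧ (q : ℤ) ^ l ∣ z.2 then Real.log q else 0)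
        ≤ ∑ _z ∈ (C y).offDiag, Real.log h := sum_le_sum h1
      _ = ((C y).offDiag.card : ℝ) * Real.log h := by rw [sum_const, nsmul_eq_mul]
      _ ≤ ((C y).card : ℝ) * (C y).card * Real.log h := by
          apply mul_le_mul_of_nonneg_right _ hlogh
          have : (C y).offDiag.card ≤ (C y).card * (C y).card := by
            rw [offDiag_card]
            exact Nat.sub_le _ _
          exact_mod_cast this
      _ = (C y).card * Real.log h * (C y).card := by ring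
  have hfin : κ ^ 2 / 2 * B.card * ∑ q ∈ F, (lam q : ℝ) * Real.log q ≤ B.card * Real.log h :=
    hsum.trans (hswap.le.trans hpair)
  have h13 : (B.card : ℝ) * (κ ^ 2 / 2 * ∑ q ∈ F, (lam q : ℝ) * Real.log q) ≤
      B.card * Real.log h := by
    refine le_trans (le_of_eq ?_) hfin
    ring
  exact le_of_mul_le_mul_left h13 hBp

end Pool.Agent.Helper2.IS
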