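import Pool.Agent.Helper2.IS.Prod
import Pool.Agent.Helper2.IS.Weight
import Pool.Agent.Helper2.IS.Num

set_option autoImplicit false

/-!
MP_120218_co, project IS (isolation): sets with small popular weight have maximal product sets.
-/

open Finset

namespace Pool.Agent.Helper2.IS

open Pool.Agent.Helper2.E Pool.Agent.Helper5

/-- **Sets of small popular weight have maximal product sets.** `lam` bounds the exponents of the
popular prime powers. -/
theorem weight_lower (k : ℕ) (hk : 1 ≤ k) {ε : ℝ} (hε : 0 < ε) : ∃ κ : ℝ, 0 < κ ∧ κ ≤ 1 / 2 ∧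
    ∃ c : ℝ, 0 < c ∧ ∃ L₀ : ℝ, 1 ≤ L₀ ∧ ∀ W : Finset ℤ, (∀ a ∈ W, a ≠ 0) →
      L₀ ≤ Real.log W.card → ∀ (F : Finset ℕ) (lam : ℕ → ℕ), (∀ q ∈ F, q.Prime) →
      (∀ q : ℕ, q.Prime → q ∉ F → lam q = 0) →
      (∀ q : ℕ, q.Prime → (dc W q (lam q + 1) : ℝ) ≤ κ * W.card) →
      ∑ q ∈ F, (lam q : ℝ) * Real.log q ≤ c * (Real.log W.card * Real.log (Real.log W.card)) →
      ((k : ℝ) - ε) * Real.log W.card ≤ Real.log ((pI W k).card : ℝ) := by
  classical
  have hk0 : (0 : ℝ) < k := by exact_mod_cast hk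
  obtain ⟨κ, hκ0, hκ1, hprod⟩ := prod_lower k hk (ε := ε / 2) (by positivity)
  obtain ⟨c, hc0, L₁, hL₁, hnum⟩ := log_prod_le k (δ := ε / (4 * (k + 1))) (by positivity)
  have hlog2 : 0 < Real.log 2 := Real.log_pos (by norm_num)
  refine ⟨κ, hκ0, hκ1, c, hc0, max L₁ (4 * (k * Real.log 2) / ε),
    hL₁.trans (le_max_left _ _), ?_⟩
  intro W hW0 hL F lam hF hlam0 hpop hsum
  have hLL₁ : L₁ ≤ Real.log W.card := (le_max_left _ _).trans hL
  have hLk : 4 * (k * Real.log 2) / ε ≤ Real.log W.card := (le_max_right _ _).trans hL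
  set L := Real.log (W.card : ℝ) with hLdef
  have hWne : W.Nonempty := by
    rw [nonempty_iff_ne_empty]
    intro h0
    rw [hLdef, h0] at hLL₁
    simp only [card_empty, Nat.cast_zero, Real.log_zero] at hLL₁
    linarith
  have h1 := hprod W hWne hW0 (F.subtype Nat.Prime) (fun q => lam q)
    (fun q hq => hlam0 q q.2 (fun h => hq (mem_subtype.2 h))) (by
      intro q
      refine le_trans ?_ (hpop q q.2)
      unfold dc
      apply Nat.cast_le.2
      apply card_le_card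
      intro a ha
      rw [mem_filter] at ha ⊢
      refine ⟨ha.1, ?_⟩
      have h2 := ha.2
      rw [fac_apply] at h2
      haveI := Fact.mk q.2
      rw [padicValInt_dvd_iff]
      right
      exact_mod_cast h2)
  have h2 : ∏ q ∈ F.subtype Nat.Prime, (k * lam q + 1) = ∏ q ∈ F, (k * lam q + 1) :=
    prod_subtype_of_mem (fun q => k * lam q + 1) hF
  rw [h2] at h1
  have h3 := hnum L hLL₁ F hF lam hsum
  have h4 : ((k : ℝ) + 1) * Real.log (∏ q ∈ F, (k * lam q + 1) : ℕ) ≤ ε / 4 * L := by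
    calc ((k : ℝ) + 1) * Real.log (∏ q ∈ F, (k * lam q + 1) : ℕ)
        ≤ (k + 1) * (ε / (4 * (k + 1)) * L) := mul_le_mul_of_nonneg_left h3 (by positivity)
      _ = ε / 4 * L := by field_simp
  have h5 : k * Real.log 2 ≤ ε / 4 * L := by
    rw [div_le_iff₀ hε] at hLk
    linarith
  linarith

/-- **Products of a set in which the elements come in groups with small common divisors.** -/
theorem core (k : ℕ) (hk : 1 ≤ k) {ε : ℝ} (hε : 0 < ε) : ∃ M : ℕ, 1 ≤ M ∧
    ∃ c : ℝ, 0 < c ∧ ∃ L₀ : ℝ, 1 ≤ L₀ ∧ ∀ B : Finset ℤ, (∀ b ∈ B, b ≠ 0) →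
      L₀ ≤ Real.log B.card → ∀ (cell : ℤ → Finset ℤ) (h : ℝ), 1 ≤ h →
      Real.log h ≤ c * (Real.log B.card * Real.log (Real.log B.card)) →
      (∀ b ∈ B, M ≤ (B.filter (fun b' => cell b' = cell b)).card) →
      (∀ b ∈ B, ∀ b' ∈ B, b ≠ b' → cell b = cell b' → (Int.gcd b b' : ℝ) ≤ h) →
      ((k : ℝ) - ε) * Real.log B.card ≤ Real.log ((pI B k).card : ℝ) := by
  classical
  obtain ⟨κ, hκ0, hκ1, c, hc0, L₀, hL₀, hw⟩ := weight_lower k hk hε
  obtain ⟨M, hM⟩ := exists_nat_ge (2 / κ ^ 2)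
  have hM2 : 2 ≤ κ ^ 2 * (M : ℝ) := by
    rw [div_le_iff₀ (by positivity)] at hM
    linarith
  have hM1 : 1 ≤ M := by
    rcases Nat.eq_zero_or_pos M with h0 | h0
    · rw [h0] at hM2; norm_num at hM2
    · exact h0
  refine ⟨M, hM1, κ ^ 2 / 2 * c, by positivity, L₀, hL₀, ?_⟩
  intro B hB0 hL cell h hh hlogh hcell hclose
  have hBne : B.Nonempty := by
    rw [nonempty_iff_ne_empty]
    intro h0
    rw [h0] at hL
    simp only [card_empty, Nat.cast_zero, Real.log_zero] at hL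
    linarith
  have hBp : (0 : ℝ) < B.card := by exact_mod_cast card_pos.2 hBne
  obtain ⟨lam, hlam⟩ := exists_lam hBne hB0 hκ0 (hκ1.trans (by norm_num))
  set F : Finset ℕ := (∏ b ∈ B, b.natAbs).primeFactors with hF
  have hFp : ∀ q ∈ F, q.Prime := fun q hq => Nat.prime_of_mem_primeFactors hq
  have hprod0 : (∏ b ∈ B, b.natAbs) ≠ 0 := by
    rw [Finset.prod_ne_zero_iff]
    intro b hb h0
    exact hB0 b hb (Int.natAbs_eq_zero.1 h0)
  have hF0 : ∀ q : ℕ, q.Prime → q ∉ F → lam q = 0 := by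
    intro q hq hqF
    by_contra hne
    have h1 := (hlam q hq).1 1 (Nat.one_le_iff_ne_zero.2 hne)
    have h2 : dc B q 1 = 0 := by
      unfold dc
      rw [card_eq_zero, filter_eq_empty_iff]
      intro b hb hdvd
      apply hqF
      rw [hF, Nat.mem_primeFactors]
      refine ⟨hq, ?_, hprod0⟩
      have h3 : q ∣ b.natAbs := by
        have h4 := Int.natAbs_dvd_natAbs.2 hdvd
        rwa [pow_one, Int.natAbs_natCast] at h4
      exact h3.trans (dvd_prod_of_mem _ hb)
    rw [h2, Nat.cast_zero] at h1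
    have : 0 < κ * B.card := by positivity
    linarith
  have hgam := gam_le hBne cell hκ0 hM2 hh hcell hclose F hFp lam
    (fun q hq l hl => (hlam q (hFp q hq)).1 l hl)
  apply hw B hB0 hL F lam hFp hF0 (fun q hq => (hlam q hq).2.le)
  have h5 : κ ^ 2 / 2 * ∑ q ∈ F, (lam q : ℝ) * Real.log q ≤
      κ ^ 2 / 2 * (c * (Real.log B.card * Real.log (Real.log B.card))) := by
    refine hgam.trans (hlogh.trans (le_of_eq ?_))
    ring
  exact le_of_mul_le_mul_left h5 (by positivity)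

end Pool.Agent.Helper2.IS
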