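import Pool.Agent.Helper2.IS.Weight

set_option autoImplicit false

/-!
MP_120218_co, project IS (isolation): the popular weight of a set in which the elements come in
groups such that any `j` elements of a group have a small common divisor.
-/

open Finset

namespace Pool.Agent.Helper2.IS

theorem multi_le {n : ℕ} (hn : n ≠ 0) (F : Finset ℕ) (hF : ∀ q ∈ F, q.Prime) (lam : ℕ → ℕ)
    (P : ℕ → ℕ → Prop) [∀ q l, Decidable (P q l)] (hd : ∀ q ∈ F, ∀ l, P q l → q ^ l ∣ n) :
    ∑ q ∈ F, ∑ l ∈ Icc 1 (lam q), (if P q l then Real.log q else 0) ≤ Real.log n := by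
  refine le_trans ?_ (sum_fact_le hn F hF)
  refine sum_le_sum fun q hq => ?_
  rw [← sum_filter, sum_const, nsmul_eq_mul]
  apply mul_le_mul_of_nonneg_right _ (Real.log_natCast_nonneg q)
  apply Nat.cast_le.2
  have h1 : (Icc 1 (lam q)).filter (fun l => P q l) ⊆ Icc 1 (n.factorization q) := by
    intro l hl
    rw [mem_filter, mem_Icc] at hl
    rw [mem_Icc]
    exact ⟨hl.1.1, ((hF q hq).pow_dvd_iff_le_factorization hn).1 (hd q hq l hl.2)⟩
  refine (card_le_card h1).trans ?_
  rw [Nat.card_Icc]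
  omega

theorem choose_ge {n r j : ℕ} {κ : ℝ} (hκ : 0 < κ) (hr : 4 * (j : ℝ) ≤ κ * r)
    (hn : κ / 2 * r ≤ n) : (κ / 4) ^ j * (r.choose j : ℝ) ≤ n.choose j := by
  have hj : (0 : ℝ) < (j.factorial : ℝ) := by exact_mod_cast j.factorial_pos
  have h1 : ((j.factorial : ℝ)) * (r.choose j : ℝ) ≤ (r : ℝ) ^ j := by
    have := Nat.descFactorial_le_pow r j
    rw [Nat.descFactorial_eq_factorial_mul_choose] at this
    exact_mod_cast this
  have h2 : ((n + 1 - j : ℕ) : ℝ) ^ j ≤ (j.factorial : ℝ) * (n.choose j : ℝ) := by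
    have := Nat.pow_sub_le_descFactorial n j
    rw [Nat.descFactorial_eq_factorial_mul_choose] at this
    exact_mod_cast this
  have h3 : κ / 4 * r ≤ ((n + 1 - j : ℕ) : ℝ) := by
    have h4 : ((n + 1 : ℕ) : ℝ) ≤ ((n + 1 - j : ℕ) : ℝ) + j := by
      have : n + 1 ≤ (n + 1 - j) + j := by omega
      exact_mod_cast this
    push_cast at h4
    linarith
  have h5 : (κ / 4 * r) ^ j ≤ (j.factorial : ℝ) * (n.choose j : ℝ) :=
    (pow_le_pow_left₀ (by positivity) h3 j).trans h2
  rw [mul_pow] at h5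
  have h6 : (j.factorial : ℝ) * ((κ / 4) ^ j * (r.choose j : ℝ)) ≤
      (j.factorial : ℝ) * (n.choose j : ℝ) := by
    calc (j.factorial : ℝ) * ((κ / 4) ^ j * (r.choose j : ℝ))
        = (κ / 4) ^ j * ((j.factorial : ℝ) * (r.choose j : ℝ)) := by ring
      _ ≤ (κ / 4) ^ j * (r : ℝ) ^ j := mul_le_mul_of_nonneg_left h1 (by positivity)
      _ ≤ _ := h5
  exact le_of_mul_le_mul_left h6 hj

/-- **The popular weight is small if the elements come in groups with small common divisors.** -/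
theorem gamJ_le {B : Finset ℤ} (hB : B.Nonempty) (hB0 : ∀ b ∈ B, b ≠ 0) {γ : Type*}
    [DecidableEq γ] (cell : ℤ → γ)
    {κ h : ℝ} {j M : ℕ} (hj : 1 ≤ j) (hκ0 : 0 < κ) (hM : 4 * (j : ℝ) ≤ κ * M) (hh : 1 ≤ h)
    (hcell : ∀ b ∈ B, M ≤ (B.filter (fun b' => cell b' = cell b)).card)
    (hclose : ∀ T ⊆ B, T.card = j → (∀ b ∈ T, ∀ b' ∈ T, cell b = cell b') →
      ((T.gcd Int.natAbs : ℕ) : ℝ) ≤ h)
    (F : Finset ℕ) (hF : ∀ q ∈ F, q.Prime) (lam : ℕ → ℕ)
    (hlam : ∀ q ∈ F, ∀ l ≤ lam q, κ * B.card ≤ (dc B q l : ℝ)) :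
    κ / 2 * (κ / 4) ^ j * ∑ q ∈ F, (lam q : ℝ) * Real.log q ≤ Real.log h := by
  classical
  have hBp : (0 : ℝ) < B.card := by exact_mod_cast card_pos.2 hB
  have hlogh : 0 ≤ Real.log h := Real.log_nonneg hh
  have hjr : (1 : ℝ) ≤ j := by exact_mod_cast hj
  set Y := B.image cell with hY
  set C : γ → Finset ℤ := fun y => B.filter (fun b => cell b = y) with hC
  have hM0 : 0 < M := by
    rcases Nat.eq_zero_or_pos M with h0 | h0
    · rw [h0] at hM; simp only [Nat.cast_zero, mul_zero] at hM; linarith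
    · exact h0
  have hCM : ∀ y ∈ Y, M ≤ (C y).card := by
    intro y hy
    obtain ⟨b, hb, rfl⟩ := mem_image.1 hy
    exact hcell b hb
  have hCpos : ∀ y ∈ Y, (0 : ℝ) < (C y).card := fun y hy => by
    exact_mod_cast lt_of_lt_of_le hM0 (hCM y hy)
  have hCκ : ∀ y ∈ Y, 4 * (j : ℝ) ≤ κ * (C y).card := fun y hy => by
    have h1 : (M : ℝ) ≤ (C y).card := by exact_mod_cast hCM y hy
    exact hM.trans (mul_le_mul_of_nonneg_left h1 hκ0.le)
  have hsumC : ∑ y ∈ Y, ((C y).card : ℝ) = B.card := by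
    exact_mod_cast (card_eq_sum_card_image cell B).symm
  -- popular prime powers divide only up to every member, so `κ ≤ 1` where they exist
  have hchpos : ∀ y ∈ Y, κ ≤ 1 → (0 : ℝ) < ((C y).card.choose j : ℝ) := by
    intro y hy hκ1
    have h1 : (j : ℝ) ≤ (C y).card := by
      have h2 := hCκ y hy
      have h3 : κ * (C y).card ≤ 1 * (C y).card :=
        mul_le_mul_of_nonneg_right hκ1 (Nat.cast_nonneg _)
      linarith
    exact_mod_cast Nat.choose_pos (by exact_mod_cast h1)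
  -- one prime power
  have hone : ∀ q ∈ F, ∀ l ∈ Icc 1 (lam q), κ / 2 * (κ / 4) ^ j * B.card ≤
      ∑ y ∈ Y, (∑ T ∈ (C y).powersetCard j, if ∀ b ∈ T, (q : ℤ) ^ l ∣ b then (1 : ℝ) else 0) *
        ((C y).card / (C y).card.choose j) := by
    intro q hq l hl
    set n : γ → ℕ := fun y => ((C y).filter (fun b => (q : ℤ) ^ l ∣ b)).card with hn
    have hnle : ∀ y, n y ≤ (C y).card := fun y => card_le_card (filter_subset _ _)
    have h1 : ∑ y ∈ Y, (n y : ℝ) = dc B q l := by
      unfold dc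
      have h2 := card_eq_sum_card_fiberwise (f := cell) (s := B.filter (fun b => (q : ℤ) ^ l ∣ b))
        (t := Y) (fun b hb => mem_image_of_mem cell (mem_filter.1 hb).1)
      rw [h2]
      push_cast
      refine sum_congr rfl fun y _ => ?_
      simp only [hn, hC]
      rw [filter_filter, filter_filter]
      congr 2
      ext b
      simp only [mem_filter]
      tauto
    have h3 : κ * B.card ≤ ∑ y ∈ Y, (n y : ℝ) := by
      rw [h1]
      exact hlam q hq l (mem_Icc.1 hl).2
    have hκ1 : κ ≤ 1 := by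
      have h4 : ∑ y ∈ Y, (n y : ℝ) ≤ ∑ y ∈ Y, ((C y).card : ℝ) :=
        sum_le_sum fun y _ => by exact_mod_cast hnle y
      rw [hsumC] at h4
      have h5 : κ * B.card ≤ 1 * B.card := by linarith
      exact le_of_mul_le_mul_right h5 hBp
    have h6 : ∀ y ∈ Y, (∑ T ∈ (C y).powersetCard j,
        if ∀ b ∈ T, (q : ℤ) ^ l ∣ b then (1 : ℝ) else 0) = ((n y).choose j : ℝ) := by
      intro y _
      have h7 : ((C y).powersetCard j).filter (fun T => ∀ b ∈ T, (q : ℤ) ^ l ∣ b) =
          ((C y).filter (fun b => (q : ℤ) ^ l ∣ b)).powersetCard j := by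
        ext T
        simp only [mem_filter, mem_powersetCard]
        constructor
        · rintro ⟨⟨h8, h9⟩, h10⟩
          exact ⟨fun b hb => mem_filter.2 ⟨h8 hb, h10 b hb⟩, h9⟩
        · rintro ⟨h8, h9⟩
          exact ⟨⟨fun b hb => (mem_filter.1 (h8 hb)).1, h9⟩, fun b hb => (mem_filter.1 (h8 hb)).2⟩
      rw [← sum_filter, h7, sum_const, nsmul_eq_mul, mul_one, card_powersetCard]
    have h8 : ∀ y ∈ Y, (κ / 4) ^ j * ((n y : ℝ) - κ / 2 * (C y).card) ≤
        (∑ T ∈ (C y).powersetCard j, if ∀ b ∈ T, (q : ℤ) ^ l ∣ b then (1 : ℝ) else 0) *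
        ((C y).card / (C y).card.choose j) := by
      intro y hy
      rw [h6 y hy]
      rcases le_or_gt (κ / 2 * (C y).card) (n y : ℝ) with hbig | hsm
      · have h9 := choose_ge hκ0 (hCκ y hy) hbig
        have hch := hchpos y hy hκ1
        have h10 : (n y : ℝ) - κ / 2 * (C y).card ≤ (C y).card := by
          have h11 : (n y : ℝ) ≤ (C y).card := by exact_mod_cast hnle y
          have h12 : 0 ≤ κ / 2 * ((C y).card : ℝ) := by positivity
          linarith
        calc (κ / 4) ^ j * ((n y : ℝ) - κ / 2 * (C y).card)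
            ≤ (κ / 4) ^ j * (C y).card := mul_le_mul_of_nonneg_left h10 (by positivity)
          _ = ((κ / 4) ^ j * ((C y).card.choose j : ℝ)) *
              ((C y).card / (C y).card.choose j) := by field_simp
          _ ≤ _ := mul_le_mul_of_nonneg_right h9 (by positivity)
      · have h9 : (κ / 4) ^ j * ((n y : ℝ) - κ / 2 * (C y).card) ≤ 0 :=
          mul_nonpos_of_nonneg_of_nonpos (by positivity) (by linarith)
        exact h9.trans (by positivity)
    refine le_trans ?_ (sum_le_sum h8)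
    rw [← mul_sum, sum_sub_distrib, ← mul_sum, hsumC]
    calc κ / 2 * (κ / 4) ^ j * B.card = (κ / 4) ^ j * (κ * B.card - κ / 2 * B.card) := by ring
      _ ≤ _ := mul_le_mul_of_nonneg_left (by linarith) (by positivity)
  -- sum over the prime powers
  have hsum : κ / 2 * (κ / 4) ^ j * B.card * ∑ q ∈ F, (lam q : ℝ) * Real.log q ≤
      ∑ q ∈ F, ∑ l ∈ Icc 1 (lam q), Real.log q *
        ∑ y ∈ Y, (∑ T ∈ (C y).powersetCard j,
          if ∀ b ∈ T, (q : ℤ) ^ l ∣ b then (1 : ℝ) else 0) *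
          ((C y).card / (C y).card.choose j) := by
    rw [mul_sum]
    refine sum_le_sum fun q hq => ?_
    have h1 : κ / 2 * (κ / 4) ^ j * B.card * ((lam q : ℝ) * Real.log q) =
        ∑ _l ∈ Icc 1 (lam q), Real.log q * (κ / 2 * (κ / 4) ^ j * B.card) := by
      rw [sum_const, Nat.card_Icc, nsmul_eq_mul, Nat.add_sub_cancel]
      ring
    rw [h1]
    refine sum_le_sum fun l hl => ?_
    exact mul_le_mul_of_nonneg_left (hone q hq l hl) (Real.log_natCast_nonneg q)
  have hswap : ∑ q ∈ F, ∑ l ∈ Icc 1 (lam q), Real.log q *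
        ∑ y ∈ Y, (∑ T ∈ (C y).powersetCard j,
          if ∀ b ∈ T, (q : ℤ) ^ l ∣ b then (1 : ℝ) else 0) *
          ((C y).card / (C y).card.choose j) =
      ∑ y ∈ Y, (∑ T ∈ (C y).powersetCard j, ∑ q ∈ F, ∑ l ∈ Icc 1 (lam q),
        if ∀ b ∈ T, (q : ℤ) ^ l ∣ b then Real.log q else 0) *
          ((C y).card / (C y).card.choose j) := by
    have h1 : ∀ q l : ℕ, Real.log q *
        ∑ y ∈ Y, (∑ T ∈ (C y).powersetCard j,
          if ∀ b ∈ T, (q : ℤ) ^ l ∣ b then (1 : ℝ) else 0) *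
          ((C y).card / (C y).card.choose j) =
        ∑ y ∈ Y, (∑ T ∈ (C y).powersetCard j,
          if ∀ b ∈ T, (q : ℤ) ^ l ∣ b then Real.log q else 0) *
          ((C y).card / (C y).card.choose j) := by
      intro q l
      rw [mul_sum]
      refine sum_congr rfl fun y _ => ?_
      rw [← mul_assoc, mul_sum]
      congr 1
      refine sum_congr rfl fun T _ => ?_
      rw [mul_ite, mul_one, mul_zero]
    calc _ = ∑ q ∈ F, ∑ l ∈ Icc 1 (lam q), ∑ y ∈ Y, (∑ T ∈ (C y).powersetCard j,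
          if ∀ b ∈ T, (q : ℤ) ^ l ∣ b then Real.log q else 0) *
          ((C y).card / (C y).card.choose j) :=
          sum_congr rfl fun q _ => sum_congr rfl fun l _ => h1 q l
      _ = ∑ q ∈ F, ∑ y ∈ Y, ∑ l ∈ Icc 1 (lam q), (∑ T ∈ (C y).powersetCard j,
          if ∀ b ∈ T, (q : ℤ) ^ l ∣ b then Real.log q else 0) *
          ((C y).card / (C y).card.choose j) :=
          sum_congr rfl fun q _ => sum_comm
      _ = ∑ y ∈ Y, ∑ q ∈ F, ∑ l ∈ Icc 1 (lam q), (∑ T ∈ (C y).powersetCard j,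
          if ∀ b ∈ T, (q : ℤ) ^ l ∣ b then Real.log q else 0) *
          ((C y).card / (C y).card.choose j) :=
          sum_comm
      _ = _ := by
          refine sum_congr rfl fun y _ => ?_
          have h2 : ∀ q : ℕ, ∑ l ∈ Icc 1 (lam q), (∑ T ∈ (C y).powersetCard j,
              if ∀ b ∈ T, (q : ℤ) ^ l ∣ b then Real.log q else 0) *
              ((C y).card / (C y).card.choose j) =
              (∑ T ∈ (C y).powersetCard j, ∑ l ∈ Icc 1 (lam q),
              if ∀ b ∈ T, (q : ℤ) ^ l ∣ b then Real.log q else 0) *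
              ((C y).card / (C y).card.choose j) := by
            intro q
            rw [← sum_mul, sum_comm]
          rw [sum_congr rfl fun q _ => h2 q, ← sum_mul, sum_comm]
  have hpair : ∑ y ∈ Y, (∑ T ∈ (C y).powersetCard j, ∑ q ∈ F, ∑ l ∈ Icc 1 (lam q),
        if ∀ b ∈ T, (q : ℤ) ^ l ∣ b then Real.log q else 0) *
          ((C y).card / (C y).card.choose j) ≤
      B.card * Real.log h := by
    rw [← hsumC, sum_mul]
    refine sum_le_sum fun y hy => ?_
    have h1 : ∀ T ∈ (C y).powersetCard j, ∑ q ∈ F, ∑ l ∈ Icc 1 (lam q),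
        (if ∀ b ∈ T, (q : ℤ) ^ l ∣ b then Real.log q else 0) ≤ Real.log h := by
      intro T hT
      rw [mem_powersetCard] at hT
      have hTB : T ⊆ B := hT.1.trans (filter_subset _ _)
      have hTne : T.Nonempty := card_pos.1 (by omega)
      have hne : T.gcd Int.natAbs ≠ 0 := by
        rw [Ne, Finset.gcd_eq_zero_iff]
        intro h3
        obtain ⟨b, hb⟩ := hTne
        exact hB0 b (hTB hb) (Int.natAbs_eq_zero.1 (h3 b hb))
      have h2 := multi_le hne F hF lam (fun q l => ∀ b ∈ T, (q : ℤ) ^ l ∣ b)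
        (fun q _ l hP => Finset.dvd_gcd fun b hb => by
          have h3 := Int.natAbs_dvd_natAbs.2 (hP b hb)
          rwa [Int.natAbs_pow, Int.natAbs_natCast] at h3)
      refine h2.trans ?_
      apply Real.log_le_log
      · exact_mod_cast Nat.pos_of_ne_zero hne
      · apply hclose T hTB hT.2
        intro b hb b' hb'
        exact (mem_filter.1 (hT.1 hb)).2.trans (mem_filter.1 (hT.1 hb')).2.symm
    have h3 : ∑ T ∈ (C y).powersetCard j, ∑ q ∈ F, ∑ l ∈ Icc 1 (lam q),
          (if ∀ b ∈ T, (q : ℤ) ^ l ∣ b then Real.log q else 0) ≤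
        ((C y).card.choose j : ℝ) * Real.log h := by
      refine (sum_le_sum h1).trans (le_of_eq ?_)
      rw [sum_const, nsmul_eq_mul, card_powersetCard]
    refine (mul_le_mul_of_nonneg_right h3 (by positivity)).trans ?_
    rcases eq_or_ne ((C y).card.choose j) 0 with h0 | h0
    · rw [h0]
      simp only [Nat.cast_zero, zero_mul]
      positivity
    · have h4 : (((C y).card.choose j : ℕ) : ℝ) ≠ 0 := Nat.cast_ne_zero.2 h0
      apply le_of_eq
      field_simp
  have hfin : κ / 2 * (κ / 4) ^ j * B.card * ∑ q ∈ F, (lam q : ℝ) * Real.log q ≤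
      B.card * Real.log h := hsum.trans (hswap.le.trans hpair)
  have h13 : (B.card : ℝ) * (κ / 2 * (κ / 4) ^ j * ∑ q ∈ F, (lam q : ℝ) * Real.log q) ≤
      B.card * Real.log h := by
    refine le_trans (le_of_eq ?_) hfin
    ring
  exact le_of_mul_le_mul_left h13 hBp

end Pool.Agent.Helper2.IS
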