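import Pool.Agent.Helper2.IS.Core
import Pool.Agent.Helper2.IS.WeightJ

set_option autoImplicit false

/-!
MP_120218_co, project IS (isolation): groups in which any `j` elements have a small common divisor.
-/

open Finset

namespace Pool.Agent.Helper2.IS

open Pool.Agent.Helper2.E Pool.Agent.Helper5

/-- **Products of a set in which the elements come in groups such that any `j` elements of a group
have a small common divisor.** -/
theorem coreJ (k : ℕ) (hk : 1 ≤ k) {ε : ℝ} (hε : 0 < ε) : ∃ M : ℕ, 1 ≤ M ∧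
    ∃ L₀ : ℝ, 1 ≤ L₀ ∧ ∀ j : ℕ, 1 ≤ j → ∃ c : ℝ, 0 < c ∧ ∀ B : Finset ℤ, (∀ b ∈ B, b ≠ 0) →
      L₀ ≤ Real.log B.card → ∀ (cell : ℤ → Finset ℤ) (h : ℝ), 1 ≤ h →
      Real.log h ≤ c * (Real.log B.card * Real.log (Real.log B.card)) →
      (∀ b ∈ B, M * j ≤ (B.filter (fun b' => cell b' = cell b)).card) →
      (∀ T ⊆ B, T.card = j → (∀ b ∈ T, ∀ b' ∈ T, cell b = cell b') →
        ((T.gcd Int.natAbs : ℕ) : ℝ) ≤ h) →
      ((k : ℝ) - ε) * Real.log B.card ≤ Real.log ((pI B k).card : ℝ) := by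
  classical
  obtain ⟨κ, hκ0, hκ1, c, hc0, L₀, hL₀, hw⟩ := weight_lower k hk hε
  obtain ⟨M, hM⟩ := exists_nat_ge (4 / κ)
  have hM2 : 4 ≤ κ * (M : ℝ) := by
    rw [div_le_iff₀ (by positivity)] at hM
    linarith
  have hM1 : 1 ≤ M := by
    rcases Nat.eq_zero_or_pos M with h0 | h0
    · rw [h0] at hM2; norm_num at hM2
    · exact h0
  refine ⟨M, hM1, L₀, hL₀, fun j hj => ⟨κ / 2 * (κ / 4) ^ j * c, by positivity, ?_⟩⟩
  intro B hB0 hL cell h hh hlogh hcell hclose
  have hBne : B.Nonempty := by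
    rw [nonempty_iff_ne_empty]
    intro h0
    rw [h0] at hL
    simp only [card_empty, Nat.cast_zero, Real.log_zero] at hL
    linarith
  have hBp : (0 : ℝ) < B.card := by exact_mod_cast card_pos.2 hBne
  obtain ⟨lam, hlam⟩ := exists_lam hBne hB0 hκ0 (hκ1.trans (by norm_num))
  set F : Finset ℕ := (∏ b ∈ B, b.natAbs).primeFactors with hF
  have hFp : ∀ q ∈ F, q.Prime := fun q hq => Nat.prime_of_mem_primeFactors hq
  have hprod0 : (∏ b ∈ B, b.natAbs) ≠ 0 := by
    rw [Finset.prod_ne_zero_iff]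
    intro b hb h0
    exact hB0 b hb (Int.natAbs_eq_zero.1 h0)
  have hF0 : ∀ q : ℕ, q.Prime → q ∉ F → lam q = 0 := by
    intro q hq hqF
    by_contra hne
    have h1 := (hlam q hq).1 1 (Nat.one_le_iff_ne_zero.2 hne)
    have h2 : dc B q 1 = 0 := by
      unfold dc
      rw [card_eq_zero, filter_eq_empty_iff]
      intro b hb hdvd
      apply hqF
      rw [hF, Nat.mem_primeFactors]
      refine ⟨hq, ?_, hprod0⟩
      have h3 : q ∣ b.natAbs := by
        have h4 := Int.natAbs_dvd_natAbs.2 hdvd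
        rwa [pow_one, Int.natAbs_natCast] at h4
      exact h3.trans (dvd_prod_of_mem _ hb)
    rw [h2, Nat.cast_zero] at h1
    have : 0 < κ * B.card := by positivity
    linarith
  have hgam := gamJ_le hBne hB0 cell hj hκ0 (M := M * j) (by
      have h1 : (4 : ℝ) * j ≤ κ * M * j := mul_le_mul_of_nonneg_right hM2 (Nat.cast_nonneg j)
      push_cast
      linarith) hh hcell hclose F hFp lam
    (fun q hq l hl => (hlam q (hFp q hq)).1 l hl)
  apply hw B hB0 hL F lam hFp hF0 (fun q hq => (hlam q hq).2.le)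
  have h5 : κ / 2 * (κ / 4) ^ j * ∑ q ∈ F, (lam q : ℝ) * Real.log q ≤
      κ / 2 * (κ / 4) ^ j * (c * (Real.log B.card * Real.log (Real.log B.card))) := by
    refine hgam.trans (hlogh.trans (le_of_eq ?_))
    ring
  exact le_of_mul_le_mul_left h5 (by positivity)

end Pool.Agent.Helper2.IS
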