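import Mathlib

set_option autoImplicit false

/-!
MP_120218_co, project IS: a maximal family of disjoint groups with a given property.
-/

open Finset

namespace Pool.Agent.Helper2.IS

theorem exists_groups (A : Finset ℤ) (Q : Finset ℤ → Prop) (M : ℕ) (hM : 1 ≤ M) : ∃ B ⊆ A,
    ∃ cell : ℤ → Finset ℤ,
      (∀ b ∈ B, M ≤ (B.filter (fun b' => cell b' = cell b)).card) ∧
      (∀ b ∈ B, Q (B.filter (fun b' => cell b' = cell b))) ∧
      ∀ S ⊆ A \ B, M ≤ S.card → ¬ Q S := by
  classical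
  set good : Finset (Finset (Finset ℤ)) := A.powerset.powerset.filter (fun 𝓢 =>
    (∀ S ∈ 𝓢, M ≤ S.card ∧ Q S) ∧
    ∀ S ∈ 𝓢, ∀ S' ∈ 𝓢, ∀ a ∈ S, a ∈ S' → S = S') with hgood
  have hne : good.Nonempty := ⟨∅, by
    rw [hgood, mem_filter]
    refine ⟨mem_powerset.2 (empty_subset _), fun S hS => absurd hS (notMem_empty S),
      fun S hS => absurd hS (notMem_empty S)⟩⟩
  obtain ⟨𝓢, h𝓢, hmax⟩ := exists_max_image good card hne
  have h𝓢' := mem_filter.1 h𝓢
  have hsub : ∀ S ∈ 𝓢, S ⊆ A := fun S hS => mem_powerset.1 (mem_powerset.1 h𝓢'.1 hS)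
  obtain ⟨hcl, hdis⟩ := h𝓢'.2
  have hfilt : ∀ S ∈ 𝓢, ∀ a ∈ S, 𝓢.filter (fun T => a ∈ T) = {S} := by
    intro S hS a ha
    ext T
    rw [mem_filter, mem_singleton]
    constructor
    · rintro ⟨hT, haT⟩
      exact (hdis S hS T hT a ha haT).symm
    · rintro rfl
      exact ⟨hS, ha⟩
  set cell : ℤ → Finset ℤ := fun a => (𝓢.filter (fun T => a ∈ T)).biUnion id with hcell
  have hcellS : ∀ S ∈ 𝓢, ∀ a ∈ S, cell a = S := by
    intro S hS a ha
    rw [hcell]
    simp only
    rw [hfilt S hS a ha, singleton_biUnion]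
    rfl
  have hclass : ∀ S ∈ 𝓢, ∀ b ∈ S,
      (𝓢.biUnion id).filter (fun b' => cell b' = cell b) = S := by
    intro S hS b hb
    ext b'
    rw [mem_filter]
    constructor
    · rintro ⟨h1, h2⟩
      obtain ⟨S', hS', hb'⟩ := mem_biUnion.1 h1
      rw [hcellS S hS b hb, hcellS S' hS' b' hb'] at h2
      rw [← h2]
      exact hb'
    · intro h1
      exact ⟨mem_biUnion.2 ⟨S, hS, h1⟩, by rw [hcellS S hS b' h1, hcellS S hS b hb]⟩
  refine ⟨𝓢.biUnion id, ?_, cell, ?_, ?_, ?_⟩
  · intro a ha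
    obtain ⟨S, hS, haS⟩ := mem_biUnion.1 ha
    exact hsub S hS haS
  · intro b hb
    obtain ⟨S, hS, hbS⟩ := mem_biUnion.1 hb
    rw [hclass S hS b hbS]
    exact (hcl S hS).1
  · intro b hb
    obtain ⟨S, hS, hbS⟩ := mem_biUnion.1 hb
    rw [hclass S hS b hbS]
    exact (hcl S hS).2
  · intro S hS hMS hcon
    have hSne : S.Nonempty := card_pos.1 (lt_of_lt_of_le hM hMS)
    have hSnot : ∀ a ∈ S, ∀ T ∈ 𝓢, a ∉ T := by
      intro a ha T hT haT
      exact (mem_sdiff.1 (hS ha)).2 (mem_biUnion.2 ⟨T, hT, haT⟩)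
    have hSn : S ∉ 𝓢 := by
      intro h
      obtain ⟨a, ha⟩ := hSne
      exact hSnot a ha S h ha
    have hins : insert S 𝓢 ∈ good := by
      rw [hgood, mem_filter]
      refine ⟨?_, ?_, ?_⟩
      · rw [mem_powerset]
        intro T hT
        rw [mem_powerset]
        rcases mem_insert.1 hT with rfl | hT
        · exact fun a ha => (mem_sdiff.1 (hS ha)).1
        · exact hsub T hT
      · intro T hT
        rcases mem_insert.1 hT with rfl | hT
        · exact ⟨hMS, hcon⟩
        · exact hcl T hT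
      · intro T hT T' hT' a ha ha'
        rcases mem_insert.1 hT with h1 | h1
        · rcases mem_insert.1 hT' with h2 | h2
          · rw [h1, h2]
          · rw [h1] at ha
            exact absurd ha' (hSnot a ha T' h2)
        · rcases mem_insert.1 hT' with h2 | h2
          · rw [h2] at ha'
            exact absurd ha (hSnot a ha' T h1)
          · exact hdis T h1 T' h2 a ha ha'
    have h1 := hmax _ hins
    rw [card_insert_of_notMem hSn] at h1
    omega

end Pool.Agent.Helper2.IS
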