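import Pool.Agent.Helper2.IS.Core
import Pool.Agent.Helper2.IS.Cliques

set_option autoImplicit false

/-!
MP_120218_co, project IS (isolation): the main theorem.
-/

open Finset

namespace Pool.Agent.Helper2.IS

open Pool.Agent.Helper2.E Pool.Agent.Helper5

/-- **Products are maximal, or the graph of the pairs with a small common divisor has no large
clique.** -/
theorem main (k : ℕ) (hk : 1 ≤ k) (ε : ℝ) (hε : 0 < ε) : ∃ M : ℕ, 1 ≤ M ∧ ∃ c : ℝ, 0 < c ∧
    c ≤ 1 / 8 ∧ ∀ A : Finset ℤ, A.Nonempty →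
      c * (A.card : ℝ) ^ ((k : ℝ) - ε) ≤ ((kP k A).card : ℝ) ∨
      ∃ E ⊆ A, (E.card : ℝ) ≤ (A.card : ℝ) ^ (1 - c) ∧ ∀ S ⊆ A \ E, M ≤ S.card →
        ∃ a ∈ S, ∃ a' ∈ S, a ≠ a' ∧
          (A.card : ℝ) ^ (c * Real.log (Real.log A.card)) < (Int.gcd a a' : ℝ) := by
  classical
  have hk0 : (0 : ℝ) < k := by exact_mod_cast hk
  have hk1 : (1 : ℝ) ≤ k := by exact_mod_cast hk
  obtain ⟨M, hM, c₁, hc₁, L₀, hL₀, hcore⟩ := core k hk (ε := ε / 2) (by positivity)
  set c' : ℝ := min (min (c₁ / 8) (1 / 8)) (ε / (8 * k)) with hc'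
  have hc'0 : 0 < c' := by rw [hc']; positivity
  have hc'1 : c' ≤ c₁ / 8 := (min_le_left _ _).trans (min_le_left _ _)
  have hc'2 : c' ≤ 1 / 8 := (min_le_left _ _).trans (min_le_right _ _)
  have hc'3 : c' ≤ ε / (8 * k) := min_le_right _ _
  clear_value c'
  set L₂ : ℝ := max (2 * L₀) (max 4 (1 / c')) with hL₂
  have hL₂a : 2 * L₀ ≤ L₂ := le_max_left _ _
  have hL₂b : 4 ≤ L₂ := (le_max_left _ _).trans (le_max_right _ _)
  have hL₂c : 1 / c' ≤ L₂ := (le_max_right _ _).trans (le_max_right _ _)
  clear_value L₂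
  refine ⟨M, hM, min c' (Real.exp (-(k * L₂))), by positivity, (min_le_left _ _).trans hc'2, ?_⟩
  set c : ℝ := min c' (Real.exp (-(k * L₂))) with hc
  have hc0 : 0 < c := by rw [hc]; positivity
  have hcc' : c ≤ c' := min_le_left _ _
  have hce : c ≤ Real.exp (-(k * L₂)) := min_le_right _ _
  have hc1 : c ≤ 1 := hcc'.trans (hc'2.trans (by norm_num))
  clear_value c
  intro A hA
  have hn1 : (1 : ℝ) ≤ A.card := by exact_mod_cast card_pos.mpr hA
  have hnpos : (0 : ℝ) < A.card := by linarith
  set L := Real.log (A.card : ℝ) with hL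
  have hLnn : 0 ≤ L := Real.log_nonneg hn1
  have hPne : (kP k A).Nonempty := by
    obtain ⟨a, ha⟩ := hA
    exact ⟨_, mem_image_of_mem _ (Fintype.mem_piFinset.2 (fun _ => ha) :
      (fun _ : Fin k => a) ∈ Fintype.piFinset (fun _ : Fin k => A))⟩
  have hP1 : (1 : ℝ) ≤ ((kP k A).card : ℝ) := by exact_mod_cast card_pos.mpr hPne
  rcases lt_or_ge L L₂ with hsm | hLL₂
  · -- small sets
    left
    refine le_trans ?_ hP1
    have h1 : (A.card : ℝ) ^ ((k : ℝ) - ε) ≤ Real.exp (k * L₂) := by
      rw [Real.rpow_def_of_pos hnpos, ← hL]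
      apply Real.exp_le_exp.2
      nlinarith
    calc c * (A.card : ℝ) ^ ((k : ℝ) - ε) ≤ Real.exp (-(k * L₂)) * Real.exp (k * L₂) := by
          apply mul_le_mul hce h1 (Real.rpow_nonneg hnpos.le _) (Real.exp_pos _).le
      _ = 1 := by rw [← Real.exp_add]; simp
  -- large sets
  have hL4 : 4 ≤ L := hL₂b.trans hLL₂
  have hL0 : 0 < L := by linarith
  have hlogL0 : 0 ≤ Real.log L := Real.log_nonneg (by linarith)
  set h : ℝ := (A.card : ℝ) ^ (c * Real.log L) with hh
  have hh1 : 1 ≤ h := Real.one_le_rpow hn1 (by positivity)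
  have hlogh : Real.log h = c * Real.log L * L := by
    rw [hh, Real.log_rpow hnpos]
  obtain ⟨B, hBA, cell, hcell, hclose, hmax⟩ := exists_cliques (A.erase 0)
    (fun a a' => (Int.gcd a a' : ℝ) ≤ h) M hM
  have hBA' : B ⊆ A := hBA.trans (erase_subset _ _)
  have hB0 : ∀ b ∈ B, b ≠ 0 := fun b hb => ne_of_mem_erase (hBA hb)
  rcases le_or_gt ((B.card : ℝ) + 1) ((A.card : ℝ) ^ (1 - c)) with hcase | hcase
  · right
    refine ⟨A.filter (fun a => a = 0 ∨ a ∈ B), filter_subset _ _, ?_, ?_⟩
    · refine le_trans ?_ hcase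
      have h1 : A.filter (fun a => a = 0 ∨ a ∈ B) ⊆ insert 0 B := by
        intro a ha
        rw [mem_insert]
        exact (mem_filter.1 ha).2
      have h2 := (card_le_card h1).trans (card_insert_le _ _)
      exact_mod_cast h2
    · intro S hS hMS
      obtain ⟨a, ha, a', ha', hne, hR⟩ := hmax S (by
        intro a ha
        have h1 := mem_sdiff.1 (hS ha)
        rw [mem_sdiff, mem_erase]
        have h2 : ¬ (a = 0 ∨ a ∈ B) := fun h3 => h1.2 (mem_filter.2 ⟨h1.1, h3⟩)
        push Not at h2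
        exact ⟨⟨h2.1, h1.1⟩, h2.2⟩) hMS
      push Not at hR
      exact ⟨a, ha, a', ha', hne, hR⟩
  · left
    have hB1 : 1 ≤ B.card := by
      by_contra h0
      have h1 : B.card = 0 := by omega
      rw [h1, Nat.cast_zero, zero_add] at hcase
      have h2 := Real.one_le_rpow hn1 (show 0 ≤ 1 - c by linarith)
      linarith
    have hB1r : (1 : ℝ) ≤ B.card := by exact_mod_cast hB1
    have hBlow : (A.card : ℝ) ^ (1 - c) / 2 ≤ B.card := by linarith
    have hc'L : 1 ≤ c' * L := by
      have := hL₂c.trans hLL₂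
      rw [div_le_iff₀ hc'0] at this
      linarith
    have hlogB : (1 - 2 * c') * L ≤ Real.log B.card := by
      have h1 : Real.log ((A.card : ℝ) ^ (1 - c) / 2) ≤ Real.log B.card :=
        Real.log_le_log (by positivity) hBlow
      rw [Real.log_div (by positivity) (by norm_num), Real.log_rpow hnpos, ← hL] at h1
      have h2 : Real.log 2 ≤ 1 := by
        have := Real.log_two_lt_d9
        linarith
      nlinarith
    have hlogB2 : L / 2 ≤ Real.log B.card := by nlinarith
    have hloglog : Real.log L / 2 ≤ Real.log (Real.log B.card) := by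
      have h1 : Real.log (L / 2) ≤ Real.log (Real.log B.card) :=
        Real.log_le_log (by positivity) hlogB2
      rw [Real.log_div hL0.ne' (by norm_num)] at h1
      have h2 : 2 * Real.log 2 ≤ Real.log L := by
        have h3 : Real.log 4 ≤ Real.log L := Real.log_le_log (by norm_num) hL4
        have h4 : Real.log 4 = 2 * Real.log 2 := by
          rw [show (4 : ℝ) = 2 ^ 2 by norm_num, Real.log_pow]
          push_cast
          ring
        linarith
      linarith
    have hres := hcore B hB0 (by linarith) cell h hh1 (by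
      rw [hlogh]
      have h1 : L / 2 * (Real.log L / 2) ≤ Real.log B.card * Real.log (Real.log B.card) :=
        mul_le_mul hlogB2 hloglog (by positivity) (by linarith)
      have h2 : c₁ * (L / 2 * (Real.log L / 2)) ≤
          c₁ * (Real.log B.card * Real.log (Real.log B.card)) :=
        mul_le_mul_of_nonneg_left h1 hc₁.le
      have h3 : c * Real.log L * L ≤ c₁ / 8 * (Real.log L * L) := by
        rw [mul_assoc]
        exact mul_le_mul_of_nonneg_right (hcc'.trans hc'1) (by positivity)
      have h4 : 0 ≤ c₁ * (Real.log L * L) := by positivity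
      linarith) hcell hclose
    have hsub : ((pI B k).card : ℝ) ≤ ((kP k A).card : ℝ) := by
      exact_mod_cast card_le_card (pI_subset hBA' k)
    rcases le_or_gt ((k : ℝ) - ε / 2) 0 with hneg | hpos
    · refine le_trans ?_ hP1
      have h1 : (A.card : ℝ) ^ ((k : ℝ) - ε) ≤ 1 :=
        Real.rpow_le_one_of_one_le_of_nonpos hn1 (by linarith)
      nlinarith
    · have hpI : 0 < Real.log ((pI B k).card : ℝ) := by
        refine lt_of_lt_of_le ?_ hres
        have : 0 < Real.log (B.card : ℝ) := by linarith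
        positivity
      have hpIpos : (0 : ℝ) < (pI B k).card := by
        by_contra h0
        have h1 : ((pI B k).card : ℝ) = 0 := le_antisymm (not_lt.1 h0) (Nat.cast_nonneg _)
        rw [h1, Real.log_zero] at hpI
        exact lt_irrefl _ hpI
      have h1 : ((k : ℝ) - ε) * L ≤ Real.log ((pI B k).card : ℝ) := by
        refine le_trans ?_ hres
        have h2 : ((k : ℝ) - ε / 2) * ((1 - 2 * c') * L) ≤ ((k : ℝ) - ε / 2) * Real.log B.card :=
          mul_le_mul_of_nonneg_left hlogB hpos.le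
        refine le_trans ?_ h2
        have h3 : c' * k ≤ ε / 8 := by
          calc c' * k ≤ ε / (8 * k) * k := mul_le_mul_of_nonneg_right hc'3 hk0.le
            _ = ε / 8 := by field_simp
        have h4 : ((k : ℝ) - ε) ≤ ((k : ℝ) - ε / 2) * (1 - 2 * c') := by nlinarith
        calc ((k : ℝ) - ε) * L ≤ (((k : ℝ) - ε / 2) * (1 - 2 * c')) * L :=
              mul_le_mul_of_nonneg_right h4 hL0.le
          _ = _ := by ring
      calc c * (A.card : ℝ) ^ ((k : ℝ) - ε) ≤ 1 * (A.card : ℝ) ^ ((k : ℝ) - ε) :=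
            mul_le_mul_of_nonneg_right hc1 (Real.rpow_nonneg hnpos.le _)
        _ = Real.exp (((k : ℝ) - ε) * L) := by
            rw [one_mul, Real.rpow_def_of_pos hnpos, ← hL, mul_comm]
        _ ≤ Real.exp (Real.log ((pI B k).card : ℝ)) := Real.exp_le_exp.2 h1
        _ = (pI B k).card := Real.exp_log hpIpos
        _ ≤ _ := hsub

end Pool.Agent.Helper2.IS
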