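import Pool.Agent.Helper2.EUnpop

set_option autoImplicit false

/-!
MP_120218_co, project IS (isolation): product sets of sets with few popular prime powers.
-/

open Finset

namespace Pool.Agent.Helper2.IS

open Pool.Agent.Helper2.E Pool.Agent.Helper5

/-- the popular part of the exponent vector, cut off at `lam` -/
noncomputable def tau (T : Finset Pr) (lam : Pr → ℕ) (b : ℤ) : Pr →₀ ℤ :=
  ∑ q ∈ T, Finsupp.single q (min (fac b q) (lam q : ℤ))

theorem tau_apply (T : Finset Pr) (lam : Pr → ℕ) (b : ℤ) (q : Pr) :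
    tau T lam b q = if q ∈ T then min (fac b q) (lam q : ℤ) else 0 := by
  unfold tau
  rw [Finsupp.finsetSum_apply]
  simp only [Finsupp.single_apply]
  rw [sum_ite_eq']

/-- the rest of the exponent vector -/
noncomputable def rest (T : Finset Pr) (lam : Pr → ℕ) (b : ℤ) : Pr →₀ ℤ := fac b - tau T lam b

/-- the box of the sums of the popular parts -/
noncomputable def box (T : Finset Pr) (lam : Pr → ℕ) (j : ℕ) : Finset (Pr →₀ ℤ) :=
  T.finsupp (fun q => Icc (0 : ℤ) ((j * lam q : ℕ) : ℤ))

theorem mem_box {T : Finset Pr} {lam : Pr → ℕ} {j : ℕ} {s : Pr →₀ ℤ} :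
    s ∈ box T lam j ↔ s.support ⊆ T ∧ ∀ q ∈ T, 0 ≤ s q ∧ s q ≤ ((j * lam q : ℕ) : ℤ) := by
  unfold box
  rw [mem_finsupp_iff]
  simp only [mem_Icc]

theorem card_box (T : Finset Pr) (lam : Pr → ℕ) (j : ℕ) :
    (box T lam j).card = ∏ q ∈ T, (j * lam q + 1) := by
  unfold box
  rw [card_finsupp]
  refine prod_congr rfl fun q _ => ?_
  rw [Int.card_Icc]
  omega

theorem fac_nonneg (b : ℤ) (q : Pr) : 0 ≤ fac b q := by
  rw [fac_apply]
  positivity

theorem tau_mem (T : Finset Pr) (lam : Pr → ℕ) (b : ℤ) : tau T lam b ∈ box T lam 1 := by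
  rw [mem_box]
  constructor
  · intro q hq
    rw [Finsupp.mem_support_iff, tau_apply] at hq
    by_contra h
    rw [if_neg h] at hq
    exact hq rfl
  · intro q hq
    rw [tau_apply, if_pos hq, one_mul]
    exact ⟨le_min (fac_nonneg b q) (by positivity), min_le_right _ _⟩

theorem box_add {T : Finset Pr} {lam : Pr → ℕ} {i j : ℕ} {s t : Pr →₀ ℤ} (hs : s ∈ box T lam i)
    (ht : t ∈ box T lam j) : s + t ∈ box T lam (i + j) := by
  classical
  rw [mem_box] at hs ht ⊢
  refine ⟨Finsupp.support_add.trans (union_subset hs.1 ht.1), fun q hq => ?_⟩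
  have h1 := hs.2 q hq
  have h2 := ht.2 q hq
  rw [Finsupp.add_apply]
  have h3 : (((i + j) * lam q : ℕ) : ℤ) = ((i * lam q : ℕ) : ℤ) + ((j * lam q : ℕ) : ℤ) := by
    rw [add_mul]
    push_cast
    ring
  rw [h3]
  constructor <;> linarith [h1.1, h1.2, h2.1, h2.2]

/-- the sums of the rests are determined by the product and a point of the box -/
theorem vI_rest (T : Finset Pr) (lam : Pr → ℕ) (W : Finset ℤ) (hW : ∀ a ∈ W, a ≠ 0) (j : ℕ) :
    (∀ x ∈ pI W j, x ≠ 0) ∧ ∀ v ∈ vI (W.image (rest T lam)) j, ∃ x ∈ pI W j,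
      ∃ s ∈ box T lam j, v = fac x - s := by
  classical
  induction j with
  | zero =>
    refine ⟨?_, ?_⟩
    · intro x hx
      simp only [pI, mem_singleton] at hx
      rw [hx]; norm_num
    · intro v hv
      simp only [vI, mem_singleton] at hv
      refine ⟨1, by simp [pI], 0, ?_, ?_⟩
      · rw [mem_box]
        simp
      · rw [hv]
        ext p
        rw [Finsupp.sub_apply, fac_apply]
        simp
  | succ j ih =>
    obtain ⟨ih1, ih2⟩ := ih
    refine ⟨?_, ?_⟩
    · intro x hx
      simp only [pI, mem_image₂] at hx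
      obtain ⟨y, hy, a, ha, rfl⟩ := hx
      exact mul_ne_zero (ih1 y hy) (hW a ha)
    · intro v hv
      simp only [vI, mem_image₂] at hv
      obtain ⟨w, hw, u, hu, rfl⟩ := hv
      obtain ⟨b, hb, rfl⟩ := mem_image.1 hu
      obtain ⟨x, hx, s, hs, rfl⟩ := ih2 w hw
      refine ⟨x * b, ?_, s + tau T lam b, box_add hs (tau_mem T lam b), ?_⟩
      · simp only [pI, mem_image₂]
        exact ⟨x, hx, b, hb, rfl⟩
      · rw [fac_mul (ih1 x hx) (hW b hb)]
        unfold rest
        abel

theorem card_vI_rest (T : Finset Pr) (lam : Pr → ℕ) (W : Finset ℤ) (hW : ∀ a ∈ W, a ≠ 0)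
    (j : ℕ) : (vI (W.image (rest T lam)) j).card ≤ (pI W j).card * ∏ q ∈ T, (j * lam q + 1) := by
  classical
  rw [← card_box, ← card_product]
  have h : vI (W.image (rest T lam)) j ⊆
      (pI W j ×ˢ box T lam j).image (fun z => fac z.1 - z.2) := by
    intro v hv
    obtain ⟨x, hx, s, hs, rfl⟩ := (vI_rest T lam W hW j).2 v hv
    exact mem_image.2 ⟨(x, s), mem_product.2 ⟨hx, hs⟩, rfl⟩
  exact (card_le_card h).trans card_image_le

theorem card_fibre (T : Finset Pr) (lam : Pr → ℕ) (W : Finset ℤ) (hW : ∀ a ∈ W, a ≠ 0)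
    (v : Pr →₀ ℤ) :
    (W.filter (fun a => rest T lam a = v)).card ≤ 2 * ∏ q ∈ T, (lam q + 1) := by
  classical
  have h1 : ∏ q ∈ T, (lam q + 1) = (box T lam 1).card := by
    rw [card_box]
    simp only [one_mul]
  have h2 : 2 * ∏ q ∈ T, (lam q + 1) = ((box T lam 1) ×ˢ (univ : Finset Bool)).card := by
    rw [card_product, ← h1, mul_comm]
    rfl
  rw [h2]
  refine card_le_card_of_injOn (fun a => (tau T lam a, decide (0 < a))) ?_ ?_
  · intro a _
    exact mem_coe.2 (mem_product.2 ⟨tau_mem T lam a, mem_univ _⟩)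
  · intro a ha b hb hab
    have ha' := mem_filter.1 (mem_coe.1 ha)
    have hb' := mem_filter.1 (mem_coe.1 hb)
    obtain ⟨h3, h4⟩ := Prod.mk.inj hab
    have h5 : fac a = fac b := by
      have e1 : fac a = rest T lam a + tau T lam a := by unfold rest; abel
      have e2 : fac b = rest T lam b + tau T lam b := by unfold rest; abel
      rw [e1, e2, ha'.2, hb'.2, h3]
    rcases fac_inj (hW a ha'.1) (hW b hb'.1) h5 with h6 | h6
    · exact h6
    · exfalso
      have h7 : (0 < a) ↔ (0 < b) := by simpa using h4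
      have ha0 := hW a ha'.1
      rw [h6] at h7 ha0
      have hb0 : b ≠ 0 := hW b hb'.1
      rcases lt_or_gt_of_ne hb0 with h8 | h8
      · have : 0 < b := h7.1 (by omega)
        omega
      · have : 0 < -b := h7.2 h8
        omega

/-- **Products of a set with few popular prime powers.** -/
theorem prod_lower (k : ℕ) (hk : 1 ≤ k) {ε : ℝ} (hε : 0 < ε) : ∃ κ : ℝ, 0 < κ ∧ κ ≤ 1 / 2 ∧
    ∀ (W : Finset ℤ), W.Nonempty → (∀ a ∈ W, a ≠ 0) → ∀ (T : Finset Pr) (lam : Pr → ℕ),
      (∀ q : Pr, q ∉ T → lam q = 0) →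
      (∀ q : Pr, ((W.filter (fun a => (lam q : ℤ) < fac a q)).card : ℝ) ≤ κ * W.card) →
      ((k : ℝ) - ε) * Real.log W.card - k * Real.log 2 -
        (k + 1) * Real.log (∏ q ∈ T, (k * lam q + 1) : ℕ) ≤
        Real.log ((pI W k).card : ℝ) := by
  classical
  have hk0 : (0 : ℝ) < k := by exact_mod_cast hk
  obtain ⟨τ, lam', κ, hτ0, hτ1, hl0, hl1, hκ0, hpar⟩ :=
    exists_params (η := ε / (k * (k + 1))) (by positivity)
  set η : ℝ := ε / (k * (k + 1)) with hη
  have hη0 : 0 < η := by positivity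
  refine ⟨min κ (1 / 2), lt_min hκ0 (by norm_num), min_le_right _ _, ?_⟩
  intro W hWne hW0 T lam hlam hpop
  have hWp : (0 : ℝ) < W.card := by exact_mod_cast card_pos.2 hWne
  set P : ℕ := ∏ q ∈ T, (k * lam q + 1) with hP
  set P₁ : ℕ := ∏ q ∈ T, (lam q + 1) with hP₁
  have hPpos : 0 < P := prod_pos fun q _ => by omega
  have hP₁pos : 0 < P₁ := prod_pos fun q _ => by omega
  have hP₁P : P₁ ≤ P := prod_le_prod' fun q _ => by nlinarith
  have hPr : (0 : ℝ) < P := by exact_mod_cast hPpos
  have hP₁r : (0 : ℝ) < P₁ := by exact_mod_cast hP₁pos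
  have hR0 : (0 : ℝ) < 2 * P₁ := by positivity
  have hprod := prod_iterE hτ0 hτ1 hl0 hl1 hκ0.le hη0.le hpar (A := W) hWne
    (rest T lam) (fun _ => 0) (by
      intro q
      refine le_trans ?_ ((hpop q).trans
        (mul_le_mul_of_nonneg_right (min_le_left _ _) hWp.le))
      apply Nat.cast_le.2
      apply card_le_card
      intro a ha
      rw [mem_filter] at ha ⊢
      refine ⟨ha.1, ?_⟩
      have h1 : rest T lam a q = fac a q - tau T lam a q := by
        unfold rest
        rw [Finsupp.sub_apply]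
      have h2 := ha.2
      rw [h1, tau_apply] at h2
      by_cases hq : q ∈ T
      · rw [if_pos hq] at h2
        by_contra h3
        push Not at h3
        rw [min_eq_left h3] at h2
        exact h2 (sub_self _)
      · rw [if_neg hq] at h2
        rw [hlam q hq]
        have := fac_nonneg a q
        have h3 : fac a q ≠ 0 := by
          intro h4
          rw [h4] at h2
          exact h2 (sub_zero 0)
        exact_mod_cast lt_of_le_of_ne this (Ne.symm h3)) hR0 (by
      intro v
      have := card_fibre T lam W hW0 v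
      exact_mod_cast this) k W.card le_rfl
  have hcard := card_vI_rest T lam W hW0 k
  have hpIne : 0 < (pI W k).card := by
    have h1 := card_pos.2 (vI_nonempty (hWne.image (rest T lam)) k)
    by_contra h2
    have h3 : (pI W k).card = 0 := by omega
    rw [h3, zero_mul] at hcard
    omega
  have hpIr : (0 : ℝ) < (pI W k).card := by exact_mod_cast hpIne
  have h4 : Real.log ((vI (W.image (rest T lam)) k).card : ℝ) ≤
      Real.log ((pI W k).card : ℝ) + Real.log P := by
    rw [← Real.log_mul hpIr.ne' hPr.ne']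
    apply Real.log_le_log
    · exact_mod_cast card_pos.2 (vI_nonempty (hWne.image (rest T lam)) k)
    · exact_mod_cast hcard
  have h5 : Real.log (2 * (P₁ : ℝ)) ≤ Real.log 2 + Real.log P := by
    rw [← Real.log_mul (by norm_num) hPr.ne']
    apply Real.log_le_log hR0
    have : (P₁ : ℝ) ≤ P := by exact_mod_cast hP₁P
    linarith
  have h6 : (k : ℝ) * (Real.log W.card - (Real.log 2 + Real.log P) -
      η * (((k : ℝ) + 1) * Real.log W.card)) ≤
      Real.log ((pI W k).card : ℝ) + Real.log P := by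
    refine le_trans ?_ (hprod.trans h4)
    apply mul_le_mul_of_nonneg_left _ hk0.le
    linarith
  have h7 : (k : ℝ) * (η * ((k : ℝ) + 1)) = ε := by
    rw [hη]
    field_simp
  have h8 : (k : ℝ) * (Real.log W.card - (Real.log 2 + Real.log P) -
      η * (((k : ℝ) + 1) * Real.log W.card)) =
      (k - (k : ℝ) * (η * ((k : ℝ) + 1))) * Real.log W.card - k * Real.log 2 -
        k * Real.log P := by ring
  rw [h8, h7] at h6
  linarith

end Pool.Agent.Helper2.IS
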