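import Mathlib

/-!
# Sharpness of the isolation theorem

The set of all subset products of `r` primes below `r ^ 2` has `2 ^ r` elements, all of them at most
`N ^ (6 * log (log N))`, `N = 2 ^ r`, and at most `(k + 1) ^ r = N ^ (log_2 (k + 1))` products of `k`
elements.
-/

set_option autoImplicit false

namespace Pool.Agent.Helper2.IS

open Finset

namespace Sharp

/-- the product of a finite set of natural numbers as an integer -/
def pr (S : Finset ℕ) : ℤ := ((∏ p ∈ S, p : ℕ) : ℤ)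

/-- all subset products of `P` -/
def sub (P : Finset ℕ) : Finset ℤ := P.powerset.image pr

theorem sub_card (P : Finset ℕ) (hP : ∀ p ∈ P, p.Prime) : (sub P).card = 2 ^ P.card := by
  unfold sub
  rw [Finset.card_image_of_injOn, Finset.card_powerset]
  intro S hS T hT h
  have hS' : S ⊆ P := by simpa using hS
  have hT' : T ⊆ P := by simpa using hT
  have h' : (∏ p ∈ S, p : ℕ) = ∏ p ∈ T, p := by
    unfold pr at h
    exact_mod_cast h
  rw [← Nat.primeFactors_prod (s := S) (fun p hp => hP p (hS' hp)),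
    ← Nat.primeFactors_prod (s := T) (fun p hp => hP p (hT' hp)), h']

theorem image_card (P : Finset ℕ) (k : ℕ) :
    ((Fintype.piFinset (fun _ : Fin k => sub P)).image
      (fun f : Fin k → ℤ => ∏ i, f i)).card ≤ (k + 1) ^ P.card := by
  classical
  have hsub : (Fintype.piFinset (fun _ : Fin k => sub P)).image
      (fun f : Fin k → ℤ => ∏ i, f i) ⊆
      (Finset.pi P (fun _ => Finset.range (k + 1))).image
        (fun e => ∏ p ∈ P.attach, ((p.1 : ℕ) : ℤ) ^ (e p.1 p.2)) := by
    intro x hx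
    obtain ⟨f, hf, rfl⟩ := Finset.mem_image.1 hx
    have hf' : ∀ i, ∃ S ⊆ P, pr S = f i := by
      intro i
      have h := (Fintype.mem_piFinset.1 hf) i
      obtain ⟨S, hS, hSe⟩ := Finset.mem_image.1 h
      exact ⟨S, Finset.mem_powerset.1 hS, hSe⟩
    choose S hS hSe using hf'
    refine Finset.mem_image.2 ⟨fun p _ => (Finset.univ.filter (fun i : Fin k => p ∈ S i)).card,
      ?_, ?_⟩
    · rw [Finset.mem_pi]
      intro p hp
      rw [Finset.mem_range]
      have h := Finset.card_le_univ (Finset.univ.filter (fun i : Fin k => p ∈ S i))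
      rw [Fintype.card_fin] at h
      omega
    · rw [Finset.prod_attach P
        (fun p => ((p : ℕ) : ℤ) ^ ((Finset.univ.filter (fun i : Fin k => p ∈ S i)).card))]
      have h1 : ∀ i, f i = ∏ p ∈ P, if p ∈ S i then ((p : ℕ) : ℤ) else 1 := by
        intro i
        rw [← hSe i, Finset.prod_ite_mem, Finset.inter_eq_right.2 (hS i)]
        unfold pr
        push_cast
        rfl
      have h2 : (∏ i, f i) = ∏ i, ∏ p ∈ P, if p ∈ S i then ((p : ℕ) : ℤ) else 1 :=
        Finset.prod_congr rfl (fun i _ => h1 i)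
      rw [h2, Finset.prod_comm]
      refine Finset.prod_congr rfl (fun p _ => ?_)
      rw [Finset.prod_ite, Finset.prod_const_one, mul_one, Finset.prod_const]
  refine (Finset.card_le_card hsub).trans (Finset.card_image_le.trans ?_)
  rw [Finset.card_pi, Finset.prod_const, Finset.card_range]

theorem pr_pos (S : Finset ℕ) (hS : ∀ p ∈ S, p.Prime) : 0 < pr S := by
  unfold pr
  have : 0 < ∏ p ∈ S, p := Finset.prod_pos (fun p hp => (hS p hp).pos)
  exact_mod_cast this

theorem pr_le (S P : Finset ℕ) (r : ℕ) (hSP : S ⊆ P) (hP : ∀ p ∈ P, p.Prime)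
    (hle : ∀ p ∈ P, p ≤ r ^ 2) (hcard : P.card = r) : pr S ≤ ((r : ℤ) ^ 2) ^ r := by
  unfold pr
  have h1 : ∏ p ∈ S, p ≤ ∏ p ∈ P, p :=
    Finset.prod_le_prod_of_subset_of_one_le' hSP (fun p hp _ => (hP p hp).one_le)
  have h2 : ∏ p ∈ P, p ≤ (r ^ 2) ^ P.card := Finset.prod_le_pow_card P _ _ hle
  rw [hcard] at h2
  exact_mod_cast h1.trans h2

/-- for large `r` there are `r` primes not exceeding `r ^ 2` -/
theorem many_primes : ∃ r₀ : ℕ, ∀ r : ℕ, r₀ ≤ r →
    ∃ P : Finset ℕ, P.card = r ∧ (∀ p ∈ P, p.Prime) ∧ ∀ p ∈ P, p ≤ r ^ 2 := by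
  have hlo := Real.isLittleO_log_id_atTop.bound (show (0 : ℝ) < 1 / 16 by norm_num)
  rw [Filter.eventually_atTop] at hlo
  obtain ⟨x₀, hx₀⟩ := hlo
  refine ⟨max 4 ⌈x₀⌉₊, fun r hr => ?_⟩
  have hr4 : 4 ≤ r := le_trans (le_max_left _ _) hr
  have hrx : x₀ ≤ (r : ℝ) := (Nat.le_ceil x₀).trans
    (by exact_mod_cast le_trans (le_max_right _ _) hr)
  have hr4' : (4 : ℝ) ≤ r := by exact_mod_cast hr4
  have hlog : Real.log r ≤ 1 / 16 * r := by
    have h := hx₀ r hrx
    simp only [id, Real.norm_eq_abs] at h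
    rw [abs_of_nonneg (by positivity : (0 : ℝ) ≤ r)] at h
    exact (le_abs_self _).trans h
  have hlogpos : 0 < Real.log r := Real.log_pos (by linarith)
  have h1 := Chebyshev.psi_ge (r ^ 2)
  have h2 := Chebyshev.psi_le_primeCounting_mul_log (r ^ 2)
  have h3 : Real.log ((r ^ 2 : ℕ) : ℝ) = 2 * Real.log r := by
    push_cast
    rw [Real.log_pow]
    norm_num
  have h4 : Real.log (((r ^ 2 : ℕ) : ℝ) + 1) ≤ 1 + 2 * Real.log r := by
    have h5 : (((r ^ 2 : ℕ) : ℝ) + 1) ≤ 2 * (r : ℝ) ^ 2 := by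
      push_cast
      nlinarith
    have h6 : Real.log (((r ^ 2 : ℕ) : ℝ) + 1) ≤ Real.log (2 * (r : ℝ) ^ 2) :=
      Real.log_le_log (by positivity) h5
    have h7 : Real.log (2 * (r : ℝ) ^ 2) = Real.log 2 + 2 * Real.log r := by
      rw [Real.log_mul (by norm_num) (by positivity), Real.log_pow]
      norm_num
    have h8 := Real.log_two_lt_d9
    linarith
  have hl2 := Real.log_two_gt_d9
  have hpi : (r : ℝ) ≤ (Nat.primeCounting (r ^ 2) : ℝ) := by
    by_contra hcon
    push Not at hcon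
    rw [h3] at h2
    have h9 : ((r ^ 2 : ℕ) : ℝ) * Real.log 2 - Real.log (((r ^ 2 : ℕ) : ℝ) + 1) ≤
        (Nat.primeCounting (r ^ 2) : ℝ) * (2 * Real.log r) := h1.trans h2
    have h10 : (Nat.primeCounting (r ^ 2) : ℝ) * (2 * Real.log r) ≤ r * (2 * Real.log r) :=
      mul_le_mul_of_nonneg_right hcon.le (by linarith)
    have h11 : (r : ℝ) * (2 * Real.log r) ≤ r * (2 * (1 / 16 * r)) := by
      apply mul_le_mul_of_nonneg_left _ (by positivity)
      linarith
    have h12 : ((r ^ 2 : ℕ) : ℝ) = (r : ℝ) ^ 2 := by push_cast; ring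
    rw [h12] at h9 h4
    have h13 : (r : ℝ) ^ 2 * 0.69 ≤ (r : ℝ) ^ 2 * Real.log 2 :=
      mul_le_mul_of_nonneg_left (by norm_num at hl2 ⊢; linarith) (by positivity)
    nlinarith
  have hpi' : r ≤ ((Finset.range (r ^ 2 + 1)).filter Nat.Prime).card := by
    have h : Nat.primeCounting (r ^ 2) = ((Finset.range (r ^ 2 + 1)).filter Nat.Prime).card := by
      rw [Nat.primeCounting, Nat.primeCounting', Nat.count_eq_card_filter_range]
    rw [← h]
    exact_mod_cast hpi
  obtain ⟨P, hPsub, hPcard⟩ := Finset.exists_subset_card_eq hpi'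
  refine ⟨P, hPcard, fun p hp => (Finset.mem_filter.1 (hPsub hp)).2, fun p hp => ?_⟩
  have := Finset.mem_range.1 (Finset.mem_filter.1 (hPsub hp)).1
  omega

end Sharp

open Sharp in
/-- For arbitrarily large `N` there is a set of `N` positive integers, all of them at most
`N ^ (C * log (log N))`, with at most `N ^ (log_2 (k + 1))` products of `k` elements. -/
theorem sharp : ∃ C : ℝ, 0 < C ∧ ∀ n : ℕ, ∃ A : Finset ℤ, n ≤ A.card ∧
    (∀ a ∈ A, 0 < a ∧ (a : ℝ) ≤ (A.card : ℝ) ^ (C * Real.log (Real.log A.card))) ∧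
    ∀ k : ℕ, (((Fintype.piFinset (fun _ : Fin k => A)).image
      (fun f : Fin k → ℤ => ∏ i, f i)).card : ℝ) ≤
      (A.card : ℝ) ^ (Real.logb 2 (k + 1)) := by
  obtain ⟨r₀, hr₀⟩ := many_primes
  refine ⟨6, by norm_num, fun n => ?_⟩
  set r := max n (max r₀ 4) with hr
  have hrn : n ≤ r := le_max_left _ _
  have hr0 : r₀ ≤ r := (le_max_left _ _).trans (le_max_right _ _)
  have hr4 : 4 ≤ r := (le_max_right _ _).trans (le_max_right _ _)
  have hr4' : (4 : ℝ) ≤ r := by exact_mod_cast hr4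
  obtain ⟨P, hPcard, hPprime, hPle⟩ := hr₀ r hr0
  have hcard : (sub P).card = 2 ^ r := by rw [sub_card P hPprime, hPcard]
  have hcardR : (((sub P).card : ℕ) : ℝ) = (2 : ℝ) ^ r := by rw [hcard]; push_cast; rfl
  have hl2 := Real.log_two_gt_d9
  have hlogN : Real.log (((sub P).card : ℕ) : ℝ) = r * Real.log 2 := by
    rw [hcardR, Real.log_pow]
  have hsq : Real.sqrt r ≤ r * Real.log 2 := by
    have h1 : (2 : ℝ) ≤ Real.sqrt r := by
      rw [show (2 : ℝ) = Real.sqrt 4 by
        rw [show (4 : ℝ) = 2 ^ 2 by norm_num]; exact (Real.sqrt_sq (by norm_num)).symm]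
      exact Real.sqrt_le_sqrt hr4'
    have h2 : Real.sqrt r * Real.sqrt r = r := Real.mul_self_sqrt (by positivity)
    have h3 : Real.sqrt r * 2 ≤ r := by nlinarith
    nlinarith [Real.sqrt_nonneg (r : ℝ)]
  have hloglog : Real.log r / 2 ≤ Real.log (Real.log (((sub P).card : ℕ) : ℝ)) := by
    rw [hlogN, ← Real.log_sqrt (by positivity)]
    exact Real.log_le_log (Real.sqrt_pos.2 (by linarith)) hsq
  refine ⟨sub P, ?_, ?_, ?_⟩
  · rw [hcard]
    exact hrn.trans (Nat.lt_two_pow_self).le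
  · intro a ha
    obtain ⟨S, hS, rfl⟩ := Finset.mem_image.1 ha
    have hSP : S ⊆ P := Finset.mem_powerset.1 hS
    refine ⟨pr_pos S (fun p hp => hPprime p (hSP hp)), ?_⟩
    have h1 : (pr S : ℝ) ≤ ((r : ℝ) ^ 2) ^ r := by
      exact_mod_cast pr_le S P r hSP hPprime hPle hPcard
    refine h1.trans ?_
    have hpos : (0 : ℝ) < (((sub P).card : ℕ) : ℝ) := by rw [hcardR]; positivity
    rw [Real.rpow_def_of_pos hpos, hlogN]
    have h2 : ((r : ℝ) ^ 2) ^ r = Real.exp (2 * r * Real.log r) := by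
      rw [← pow_mul, mul_comm (2 * (r : ℝ)) (Real.log r), Real.exp_mul,
        Real.exp_log (by linarith)]
      rw [← Real.rpow_natCast]
      push_cast
      rfl
    rw [h2]
    apply Real.exp_le_exp.2
    rw [← hlogN]
    have hlr : 0 ≤ Real.log r := Real.log_nonneg (by linarith)
    have h3 : r * Real.log 2 * (6 * (Real.log r / 2)) ≤
        r * Real.log 2 * (6 * Real.log (Real.log (((sub P).card : ℕ) : ℝ))) := by
      apply mul_le_mul_of_nonneg_left _ (by positivity)
      linarith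
    have h4 : 2 * (r : ℝ) * Real.log r ≤ r * Real.log 2 * (6 * (Real.log r / 2)) := by
      have h5 : 0 ≤ (r : ℝ) * Real.log r := by positivity
      nlinarith
    rw [hlogN] at h3 ⊢
    linarith
  · intro k
    have h1 := image_card P k
    rw [hPcard] at h1
    have h2 : (((Fintype.piFinset (fun _ : Fin k => sub P)).image
        (fun f : Fin k → ℤ => ∏ i, f i)).card : ℝ) ≤ ((k : ℝ) + 1) ^ r := by
      exact_mod_cast h1
    refine h2.trans (le_of_eq ?_)
    rw [hcardR, ← Real.rpow_natCast 2 r, ← Real.rpow_mul (by norm_num), mul_comm,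
      Real.rpow_mul (by norm_num), Real.rpow_logb (by norm_num) (by norm_num) (by positivity),
      Real.rpow_natCast]

end Pool.Agent.Helper2.IS
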