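import Pool.Agent.Helper2.IS.Core
import Pool.Agent.Helper26.TR.Defs

set_option autoImplicit false

/-!
MP_120218_co, projects IS, TR: the lower bound for the weight of the popular valuations.
-/

open Finset

namespace Pool.Agent.Helper2.IS

open Pool.Agent.Helper2.E Pool.Agent.Helper5 Pool.Agent.Helper26.TR

theorem lev_zero {κ : ℝ} {A : Finset ℤ} {q : ℕ} (hq : q.Prime) (h : q ∉ prs A) :
    lev κ A q = 0 := by
  have h1 : mval A q = 0 := by
    unfold mval
    rw [← Nat.le_zero]
    apply Finset.sup_le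
    intro a ha
    have h2 : ¬ q ∣ a.natAbs ∨ a.natAbs = 0 := by
      by_contra h3
      push Not at h3
      apply h
      unfold prs
      rw [mem_biUnion]
      exact ⟨a, ha, Nat.mem_primeFactors.2 ⟨hq, h3.1, h3.2⟩⟩
    unfold padicValInt
    rcases h2 with h2 | h2
    · rw [padicValNat.eq_zero_of_not_dvd h2]
    · rw [h2]; simp
  unfold lev
  rw [h1, Nat.findGreatest_zero]

theorem lev_max {κ : ℝ} (hκ : 0 < κ) {A : Finset ℤ} (hA : A.Nonempty) (h0 : (0 : ℤ) ∉ A) {q : ℕ}
    (hq : q.Prime) : (cdiv A ((q : ℤ) ^ (lev κ A q + 1)) : ℝ) < κ * A.card := by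
  classical
  have hAp : (0 : ℝ) < A.card := by exact_mod_cast card_pos.2 hA
  rcases le_or_gt (lev κ A q + 1) (mval A q) with h | h
  · have := Nat.findGreatest_is_greatest
      (P := fun l => κ * (A.card : ℝ) ≤ (cdiv A ((q : ℤ) ^ l) : ℝ))
      (show lev κ A q < lev κ A q + 1 from Nat.lt_succ_self _) h
    push Not at this
    exact this
  · have h1 : cdiv A ((q : ℤ) ^ (lev κ A q + 1)) = 0 := by
      unfold cdiv
      rw [card_eq_zero, filter_eq_empty_iff]
      intro a ha hdvd
      haveI := Fact.mk hq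
      rw [padicValInt_dvd_iff] at hdvd
      rcases hdvd with h2 | h2
      · rw [h2] at ha
        exact h0 ha
      · have h3 : padicValInt q a ≤ mval A q := le_sup (f := fun a => padicValInt q a) ha
        omega
    rw [h1, Nat.cast_zero]
    positivity

/-- **The lower bound for the weight of the popular valuations.** -/
theorem weightLower : WeightLower := by
  intro k hk ε hε
  obtain ⟨κ₀, hκ₀, -, c₁, hc₁, L₀, hL₀, hw⟩ := weight_lower k hk hε
  have hk0 : (0 : ℝ) < k := by exact_mod_cast hk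
  refine ⟨κ₀, min (min c₁ 1) (Real.exp (-(k * L₀))), hκ₀, by positivity, ?_⟩
  set c : ℝ := min (min c₁ 1) (Real.exp (-(k * L₀))) with hc
  have hc0 : 0 < c := by rw [hc]; positivity
  have hcc₁ : c ≤ c₁ := (min_le_left _ _).trans (min_le_left _ _)
  have hc1 : c ≤ 1 := (min_le_left _ _).trans (min_le_right _ _)
  have hce : c ≤ Real.exp (-(k * L₀)) := min_le_right _ _
  clear_value c
  intro A hA h0 hprod κ hκ hκκ₀
  have hn1 : (1 : ℝ) ≤ A.card := by exact_mod_cast card_pos.mpr hA
  have hnpos : (0 : ℝ) < A.card := by linarith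
  have hLnn : 0 ≤ Real.log (A.card : ℝ) := Real.log_nonneg hn1
  have hPne : (prodSet k A).Nonempty := by
    obtain ⟨a, ha⟩ := hA
    exact ⟨_, mem_image_of_mem _ (Fintype.mem_piFinset.2 (fun _ => ha) :
      (fun _ : Fin k => a) ∈ Fintype.piFinset (fun _ : Fin k => A))⟩
  have hP1 : (1 : ℝ) ≤ ((prodSet k A).card : ℝ) := by exact_mod_cast card_pos.mpr hPne
  rcases lt_or_ge (Real.log (A.card : ℝ)) L₀ with hsm | hLL₀
  · exfalso
    have h1 : (A.card : ℝ) ^ ((k : ℝ) - ε) ≤ Real.exp (k * L₀) := by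
      rw [Real.rpow_def_of_pos hnpos]
      apply Real.exp_le_exp.2
      nlinarith
    have h2 : c * (A.card : ℝ) ^ ((k : ℝ) - ε) ≤ 1 := by
      calc c * (A.card : ℝ) ^ ((k : ℝ) - ε) ≤ Real.exp (-(k * L₀)) * Real.exp (k * L₀) := by
            apply mul_le_mul hce h1 (Real.rpow_nonneg hnpos.le _) (Real.exp_pos _).le
        _ = 1 := by rw [← Real.exp_add]; simp
    linarith
  by_contra hlt
  push Not at hlt
  have hloglog : 0 ≤ Real.log (Real.log (A.card : ℝ)) := Real.log_nonneg (by linarith)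
  have hres := hw A (fun a ha h => h0 (h ▸ ha)) hLL₀ (prs A) (lev κ A)
    (fun q hq => by
      unfold prs at hq
      obtain ⟨a, _, ha⟩ := mem_biUnion.1 hq
      exact Nat.prime_of_mem_primeFactors ha)
    (fun q hq hqA => lev_zero hq hqA)
    (fun q hq => by
      refine (lev_max hκ hA h0 hq).le.trans ?_
      exact mul_le_mul_of_nonneg_right hκκ₀ hnpos.le)
    (by
      refine hlt.le.trans ?_
      exact mul_le_mul_of_nonneg_right hcc₁ (mul_nonneg hLnn hloglog))
  have hsub : ((pI A k).card : ℝ) ≤ ((prodSet k A).card : ℝ) := by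
    exact_mod_cast card_le_card (pI_subset (Subset.refl A) k)
  rcases le_or_gt ((k : ℝ) - ε) 0 with hneg | hpos
  · have h1 : (A.card : ℝ) ^ ((k : ℝ) - ε) ≤ 1 :=
      Real.rpow_le_one_of_one_le_of_nonpos hn1 (by linarith)
    nlinarith
  · have hpI : 0 < Real.log ((pI A k).card : ℝ) := by
      refine lt_of_lt_of_le ?_ hres
      have : 0 < Real.log (A.card : ℝ) := by linarith
      positivity
    have hpIpos : (0 : ℝ) < (pI A k).card := by
      by_contra h1
      have h2 : ((pI A k).card : ℝ) = 0 := le_antisymm (not_lt.1 h1) (Nat.cast_nonneg _)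
      rw [h2, Real.log_zero] at hpI
      exact lt_irrefl _ hpI
    have h3 : (A.card : ℝ) ^ ((k : ℝ) - ε) ≤ (pI A k).card := by
      calc (A.card : ℝ) ^ ((k : ℝ) - ε) = Real.exp (((k : ℝ) - ε) * Real.log A.card) := by
            rw [Real.rpow_def_of_pos hnpos, mul_comm]
        _ ≤ Real.exp (Real.log ((pI A k).card : ℝ)) := Real.exp_le_exp.2 hres
        _ = _ := Real.exp_log hpIpos
    have h4 : 0 < (A.card : ℝ) ^ ((k : ℝ) - ε) := Real.rpow_pos_of_pos hnpos _
    have h5 : c * (A.card : ℝ) ^ ((k : ℝ) - ε) ≤ (A.card : ℝ) ^ ((k : ℝ) - ε) := by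
      nlinarith
    linarith

end Pool.Agent.Helper2.IS
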